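import Pool.Agent.N869.GK.Z.Fin
import Pool.Agent.Y73.QMQ1.Gal

/-!
# Project GK: multiquadratic fields
-/

set_option autoImplicit false
set_option linter.unusedVariables false
set_option linter.unusedSectionVars false

open scoped Classical

namespace Pool.Agent.N869.GK.Z

open Finset Filter Topology WeierstrassCurve
open Pool.Agent.N869.GK (c4 kap)
open Pool.Agent.N869.GK.H (tps KC rg)
open Pool.Agent.N869.GK.M (Rts sel_card triv_of no_growth growth_le)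
open Pool.Agent.TH841.SH (SelG)
open Pool.Agent.W307.RT (Sh)
open Pool.Agent.TH841.NF (EF Gen)
open Pool.Agent.Y723.QT (Kl F2)

section field

variable {F : Type} [Field F] [NumberField F] {n : ℕ} {d : Fin n → ℕ}

lemma gen_of (h : IsMultiquadratic d F) : Gen F (fun i => (d i : ℤ)) := by
  obtain ⟨x, hx, h1⟩ := h
  exact ⟨x, fun i => by rw [hx i]; push_cast; rfl, h1⟩

lemma finrank_mq (hd : Independent d) (h : IsMultiquadratic d F) : Module.finrank ℚ F = 2 ^ n := by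
  obtain ⟨x, hx, h1⟩ := gen_of h
  have h2 : IsGalois ℚ F := Pool.Agent.Y73.QMQ1.gal_of hx h1
  rw [← IsGalois.card_aut_eq_finrank]
  refine Pool.Agent.Y73.QMQ1.card_gal (d := fun i => (d i : ℤ)) ?_ hx h1
  intro T hT h3
  apply hd T hT
  obtain ⟨r, hr⟩ := h3
  refine ⟨r.natAbs, ?_⟩
  have h4 : ((∏ i ∈ T, d i : ℕ) : ℤ) = r * r := by
    rw [← hr]
    push_cast
    rfl
  have h5 := congrArg Int.natAbs h4
  rw [Int.natAbs_mul, Int.natAbs_natCast] at h5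
  exact h5

end field

lemma killed_iff {F : Type} [Field F] [NumberField F] (e : Fin 3 → ℤ) (m : ℕ) :
    Killed F e m ↔ Kl (Pool.Agent.TH841.NF.D.Sha (EF (cA e) (cB e) F)) m :=
  ⟨fun h k x hx => h x ⟨k, hx⟩, fun h x hx => h hx.choose x hx.choose_spec⟩

lemma kl_equiv {G H : Type} [AddCommGroup G] [AddCommGroup H] (Φ : G ≃+ H) {m : ℕ} (h : Kl G m) :
    Kl H m := by
  intro k x hx
  have h1 := h k (Φ.symm x) (by rw [← map_nsmul, hx, map_zero])
  have h2 := congrArg Φ h1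
  rwa [map_nsmul, AddEquiv.apply_symm_apply, map_zero] at h2

lemma f2_equiv {G H : Type} [AddCommGroup G] [AddCommGroup H] (Φ : G ≃+ H) (h : F2 G) : F2 H := by
  unfold F2 at h ⊢
  refine (h.image Φ).subset ?_
  rintro y ⟨k, hk⟩
  exact ⟨Φ.symm y, ⟨k, by rw [← map_nsmul, hk, map_zero]⟩, Φ.apply_symm_apply y⟩

lemma killed_q (e : Fin 3 → ℤ) (m : ℕ) :
    Killed ℚ e m ↔ Kl (Pool.Agent.TH841.SH.D.Sha (Sh (cA e) (cB e))) m := by
  rw [killed_iff]
  exact ⟨fun h => kl_equiv (Pool.Agent.R413.SJ.ShaQ.iso (Sh (cA e) (cB e))) h,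
    fun h => kl_equiv (Pool.Agent.R413.SJ.ShaQ.iso (Sh (cA e) (cB e))).symm h⟩

lemma fintwo_iff {F : Type} [Field F] [NumberField F] (e : Fin 3 → ℤ) :
    FinTwo F e ↔ F2 (Pool.Agent.TH841.NF.D.Sha (EF (cA e) (cB e) F)) := Iff.rfl

lemma fintwo_q (e : Fin 3 → ℤ) :
    FinTwo ℚ e ↔ F2 (Pool.Agent.TH841.SH.D.Sha (Sh (cA e) (cB e))) := by
  rw [fintwo_iff]
  exact ⟨fun h => f2_equiv (Pool.Agent.R413.SJ.ShaQ.iso (Sh (cA e) (cB e))) h,
    fun h => f2_equiv (Pool.Agent.R413.SJ.ShaQ.iso (Sh (cA e) (cB e))).symm h⟩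

/-- no growth if all the twists are minimal -/
theorem no_growth' {N : ℕ} {e : Fin 3 → ℤ} (h : Kane N e) {n : ℕ} {d : Fin n → ℕ}
    (hd : ∀ i, 0 < d i)
    (hT : ∀ T : Finset (Fin n), T.Nonempty → (SelG ((∏ i ∈ T, (d i : ℤ)) * e 0)
      ((∏ i ∈ T, (d i : ℤ)) * e 1) ((∏ i ∈ T, (d i : ℤ)) * e 2)).ncard ≤ 2 ^ (0 + 2)) :
    NoGrowth d e := by
  intro F _ _ hF
  have hd' : ∀ i, ((d i : ℕ) : ℤ) ≠ 0 := fun i => by exact_mod_cast (hd i).ne'
  obtain ⟨h1, h2, h3⟩ := no_growth (rts h) hd' (gen_of hF) fun T hT' =>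
    triv_of (rts h) (prod_ne_zero_iff.2 fun i _ => hd' i) (hT T hT')
  refine ⟨?_, ?_, ?_⟩
  · show Pool.Agent.TH841.NF.D.rk (EF (cA e) (cB e) F) = Pool.Agent.TH841.NF.D.rk (E e ℚ)
    rw [h1, E_eq, rk_eq]
    rfl
  · rw [fintwo_q, fintwo_iff]
    exact h3
  · intro m hm
    rw [killed_iff]
    exact h2 m ((killed_q e m).1 hm)

lemma c4_eq : kappa = c4 := rfl

lemma law_eq (r : ℕ) : law r = kap r := rfl

lemma KC_zero (r : ℕ) (hr : r % 2 = 0) : KC r 0 = kappa := by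
  unfold KC rg
  have e1 : (range (0 + 1)).filter (fun j => j % 2 = r % 2) = {0} := by
    ext j
    rw [mem_filter, mem_range, mem_singleton]
    constructor
    · rintro ⟨h, -⟩
      omega
    · rintro rfl
      exact ⟨by omega, by omega⟩
  rw [e1, sum_singleton]
  unfold kap
  rw [prod_range_zero, mul_one]
  rfl

lemma kappa_bd : 0.4194 < kappa ∧ kappa < 0.4195 := Pool.Agent.N495.GK.t_KAP.1.2

/-- **The general theorem without growth.** -/
theorem gen0 {N : ℕ} (hN : 0 < N) {m : ℕ} {e : Fin m → Fin 3 → ℤ} (he : ∀ k, Kane N (e k))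
    (hr : ∀ k, ∃ r, SelRank (e k) (2 * r)) (ha : ∀ k k', k ≠ k' → Apart (e k) (e k'))
    (w : Bool) (n : ℕ) (hn : w = true → 2 ≤ n) (𝒯 : Finset (Finset (Fin n)))
    (h𝒯 : ∀ T ∈ 𝒯, T.Nonempty) {δ : ℝ} (hδ : 0 < δ) :
    AlmostAll (Conductor N)
      (AtLeast N w (Sml e (fun _ _ => 0) 𝒯) (kappa ^ (m * 𝒯.card)) δ) := by
  choose r hr using hr
  have key := gen hN he hr ha w n hn 𝒯 h𝒯 (fun _ _ => 0) hδ
  have e1 : ∏ T ∈ 𝒯, ∏ k : Fin m, KC (2 * r k) 0 = kappa ^ (m * 𝒯.card) := by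
    have e2 : ∀ k : Fin m, KC (2 * r k) 0 = kappa := fun k => KC_zero _ (by omega)
    simp only [e2, prod_const, card_univ, Fintype.card_fin, pow_mul]
  rw [e1] at key
  exact key

end Pool.Agent.N869.GK.Z
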