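import Pool.Agent.TH841.NF.ShaN

/-!
# Elliptic curves with full 2-torsion: the definitions used in the theorems of the project GK
-/

set_option autoImplicit false

namespace Pool.Agent.N869.GK.Z

open Finset Filter Topology

/-- the coefficient `A` of `y² = x³ + A x + B = (x - e 0) (x - e 1) (x - e 2)` -/
def cA (e : Fin 3 → ℤ) : ℤ := e 0 * e 1 + e 0 * e 2 + e 1 * e 2

/-- the coefficient `B` of `y² = x³ + A x + B = (x - e 0) (x - e 1) (x - e 2)` -/
def cB (e : Fin 3 → ℤ) : ℤ := -(e 0 * e 1 * e 2)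

/-- the elliptic curve `y² = (x - e 0) (x - e 1) (x - e 2)`, with `e 0 + e 1 + e 2 = 0`, over `K` -/
def E (e : Fin 3 → ℤ) (K : Type) [Field K] : WeierstrassCurve K :=
  { a₁ := 0, a₂ := 0, a₃ := 0, a₄ := (cA e : K), a₆ := (cB e : K) }

/-- the quadratic twist by `t` -/
def tw (t : ℤ) (e : Fin 3 → ℤ) : Fin 3 → ℤ := fun i => t * e i

/-- `E` is an elliptic curve with full rational 2-torsion without a rational cyclic isogeny of degree
four, with good reduction outside `2 N` -/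
structure Kane (N : ℕ) (e : Fin 3 → ℤ) : Prop where
  sum : e 0 + e 1 + e 2 = 0
  inj : Function.Injective e
  bad : ∀ p : ℕ, p.Prime → (p : ℤ) ∣ (e 0 - e 1) * (e 0 - e 2) * (e 1 - e 2) → p ∣ 2 * N
  four₀ : ¬ IsSquare ((e 0 - e 1) * (e 0 - e 2))
  four₁ : ¬ IsSquare ((e 1 - e 0) * (e 1 - e 2))
  four₂ : ¬ IsSquare ((e 2 - e 0) * (e 2 - e 1))

/-- the differences of the roots of the two curves do not agree modulo squares, in whatever order the
roots of the second curve are taken -/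
def Apart (e e' : Fin 3 → ℤ) : Prop := ∀ σ : Equiv.Perm (Fin 3),
  ∃ i j : Fin 3, i < j ∧ ¬ IsSquare ((e i - e j) * (e' (σ i) - e' (σ j)))

/-- the rank of the group of the points over the number field `K` -/
noncomputable def rank (K : Type) [Field K] [NumberField K] (e : Fin 3 → ℤ) : ℕ :=
  Pool.Agent.TH841.NF.D.rk (E e K)

/-- the Tate-Shafarevich group over the number field `K` -/
abbrev Sha (K : Type) [Field K] [NumberField K] (e : Fin 3 → ℤ) : Type :=
  Pool.Agent.TH841.NF.D.Sha (E e K)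

/-- `2 ^ rank E(ℚ) * #Ш(E/ℚ)[2] = 2 ^ r`, that is, `Sel_2(E/ℚ)` has the dimension `r + 2` -/
def SelRank (e : Fin 3 → ℤ) (r : ℕ) : Prop :=
  Finite {x : Sha ℚ e // x + x = 0} ∧
    2 ^ rank ℚ e * Nat.card {x : Sha ℚ e // x + x = 0} = 2 ^ r

/-- `2 ^ rank E(ℚ) * #Ш(E/ℚ)[2] ≤ 2 ^ r`, that is, `Sel_2(E/ℚ)` has at most the dimension `r + 2` -/
def SelRankLe (e : Fin 3 → ℤ) (r : ℕ) : Prop :=
  Finite {x : Sha ℚ e // x + x = 0} ∧
    2 ^ rank ℚ e * Nat.card {x : Sha ℚ e // x + x = 0} ≤ 2 ^ r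

/-- the 2-primary part of `Ш(E/K)` is finite -/
def FinTwo (K : Type) [Field K] [NumberField K] (e : Fin 3 → ℤ) : Prop :=
  {x : Sha K e | ∃ k : ℕ, 2 ^ k • x = 0}.Finite

/-- the 2-primary part of `Ш(E/K)` is killed by `2 ^ m` -/
def Killed (K : Type) [Field K] [NumberField K] (e : Fin 3 → ℤ) (m : ℕ) : Prop :=
  ∀ x : Sha K e, (∃ k : ℕ, 2 ^ k • x = 0) → 2 ^ m • x = 0

/-- the squarefree numbers prime to `2 N` -/
def Conductor (N f : ℕ) : Prop := Squarefree f ∧ f.Coprime (2 * N)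

/-- `d` is a square in `ℝ`, `ℚ_2` and `ℚ_p` for the primes `p` dividing `N` -/
def Disc (N d : ℕ) : Prop := d % 8 = 1 ∧ ∀ p : ℕ, p.Prime → p ≠ 2 → p ∣ N → IsSquare (d : ZMod p)

/-- no product of some of the `d_i` is a square -/
def Independent {n : ℕ} (d : Fin n → ℕ) : Prop :=
  ∀ T : Finset (Fin n), T.Nonempty → ¬ IsSquare (∏ i ∈ T, d i)

/-- `K = ℚ(√d_1, …, √d_n)` -/
def IsMultiquadratic {n : ℕ} (d : Fin n → ℕ) (K : Type) [Field K] [NumberField K] : Prop :=
  ∃ x : Fin n → K, (∀ i, x i ^ 2 = (d i : K)) ∧ IntermediateField.adjoin ℚ (Set.range x) = ⊤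

/-- there is no growth over `F = ℚ(√d_1, …, √d_n)`: the rank of `E(F)` is the rank of `E(ℚ)`, the 2-primary
part of `Ш(E/F)` is finite if and only if the 2-primary part of `Ш(E/ℚ)` is finite, and if `2 ^ m` kills
the latter then `2 ^ (n + m)` kills the former -/
def NoGrowth {n : ℕ} (d : Fin n → ℕ) (e : Fin 3 → ℤ) : Prop :=
  ∀ (F : Type) [Field F] [NumberField F], IsMultiquadratic d F →
    rank F e = rank ℚ e ∧ (FinTwo F e ↔ FinTwo ℚ e) ∧ ∀ m : ℕ, Killed ℚ e m → Killed F e (n + m)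

/-- the number of the `1 ≤ f ≤ X` with the property `P` -/
noncomputable def count (P : ℕ → Prop) (X : ℕ) : ℕ :=
  (@Finset.filter ℕ P (fun _ => Classical.propDecidable _) (Icc 1 X)).card

/-- almost all the numbers with the property `P` have the property `Q` (natural density) -/
def AlmostAll (P Q : ℕ → Prop) : Prop :=
  Tendsto (fun X : ℕ => (count (fun f => P f ∧ Q f) X : ℝ) / (count P X : ℝ)) atTop (𝓝 1)

/-- `∏_{i ≥ 0} (1 - 2^(-2 i - 1)) = 0.4194…` -/
noncomputable def kappa : ℝ := ∏' i : ℕ, (1 - (1 / 2 : ℝ) ^ (2 * i + 1))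

/-- the limit law of the 2-Selmer ranks of a given parity: `law 0 = κ`, `law 1 = 2 κ`,
`law r = κ 2^r / ((2 - 1) (4 - 1) ⋯ (2^r - 1))` -/
noncomputable def law (r : ℕ) : ℝ := kappa * ∏ i ∈ range r, (2 / (2 ^ (i + 1) - 1) : ℝ)

end Pool.Agent.N869.GK.Z
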