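import Pool.Agent.N869.GK.X.Leaves

/-!
# Project GK: one of several curves has a minimal 2-Selmer group
-/

set_option autoImplicit false
set_option linter.unusedVariables false
set_option linter.unusedSectionVars false

open scoped Classical

namespace Pool.Agent.N869.GK.Z

open Finset Filter Topology

lemma AlmostAll.and {P Q Q' : ℕ → Prop} (h : AlmostAll P Q) (h' : AlmostAll P Q') :
    AlmostAll P (fun f => Q f ∧ Q' f) := by
  unfold AlmostAll at h h' ⊢
  have h1 : Tendsto (fun X : ℕ => (count (fun f => P f ∧ Q f) X : ℝ) / (count P X : ℝ) +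
      (count (fun f => P f ∧ Q' f) X : ℝ) / (count P X : ℝ) - 1) atTop (𝓝 1) := by
    have := (h.add h').sub (tendsto_const_nhds (x := (1 : ℝ)))
    have e : (1 : ℝ) + 1 - 1 = 1 := by norm_num
    rwa [e] at this
  refine tendsto_of_tendsto_of_tendsto_of_le_of_le h1 tendsto_const_nhds ?_ ?_
  · intro X
    simp only []
    have h2 : count (fun f => P f ∧ Q f) X + count (fun f => P f ∧ Q' f) X ≤
        count (fun f => P f ∧ (Q f ∧ Q' f)) X + count P X := by
      unfold count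
      rw [← Finset.card_union_add_card_inter, add_comm]
      refine Nat.add_le_add (card_le_card ?_) (card_le_card ?_)
      · intro f hf
        simp only [mem_inter, mem_filter] at hf ⊢
        exact ⟨hf.1.1, hf.1.2.1, hf.1.2.2, hf.2.2.2⟩
      · intro f hf
        simp only [mem_union, mem_filter] at hf ⊢
        rcases hf with hf | hf
        · exact ⟨hf.1, hf.2.1⟩
        · exact ⟨hf.1, hf.2.1⟩
    rcases Nat.eq_zero_or_pos (count P X) with h0 | h0
    · rw [h0]
      simp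
    · have h3 : (0 : ℝ) < count P X := by exact_mod_cast h0
      have h4 : (count (fun f => P f ∧ Q f) X : ℝ) + count (fun f => P f ∧ Q' f) X ≤
          count (fun f => P f ∧ (Q f ∧ Q' f)) X + count P X := by exact_mod_cast h2
      rw [← add_div, sub_le_iff_le_add, div_le_iff₀ h3, add_mul, div_mul_cancel₀ _ h3.ne', one_mul]
      exact h4
  · intro X
    refine div_le_one_of_le₀ (Nat.cast_le.2 (card_le_card ?_)) (Nat.cast_nonneg _)
    intro f hf
    simp only [mem_filter] at hf ⊢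
    exact ⟨hf.1, hf.2.1⟩

lemma AlmostAll.ball {ι : Type} {P Q₀ : ℕ → Prop} (h₀ : AlmostAll P Q₀) (S : Finset ι)
    {Q : ι → ℕ → Prop} (h : ∀ s ∈ S, AlmostAll P (Q s)) :
    AlmostAll P (fun f => Q₀ f ∧ ∀ s ∈ S, Q s f) := by
  induction S using Finset.induction_on with
  | empty => exact h₀.mono fun f _ hf => ⟨hf, fun s hs => absurd hs (notMem_empty s)⟩
  | insert a S ha ih =>
    refine ((ih fun s hs => h s (mem_insert_of_mem hs)).and (h a (mem_insert_self a S))).mono ?_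
    rintro f - ⟨⟨h1, h2⟩, h3⟩
    refine ⟨h1, fun s hs => ?_⟩
    rcases mem_insert.1 hs with rfl | hs
    · exact h3
    · exact h2 s hs

/-- all the twists of the curve by the products, `T ∈ 𝒯`, are minimal -/
def Mi (e : Fin 3 → ℤ) {n : ℕ} (𝒯 : Finset (Finset (Fin n))) (x : Fin n → ℕ) : Prop :=
  ∀ T ∈ 𝒯, SelRank (tw (∏ i ∈ T, (x i : ℤ)) e) 0

/-- some of the curves -/
theorem law_sub {N : ℕ} (hN : 0 < N) {m : ℕ} {e : Fin m → Fin 3 → ℤ}
    (he : ∀ k, Kane N (e k)) (hr : ∀ k, ∃ r, SelRank (e k) (2 * r))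
    (ha : ∀ k k', k ≠ k' → Apart (e k) (e k'))
    (w : Bool) (n : ℕ) (hn : w = true → 2 ≤ n) (𝒯 : Finset (Finset (Fin n)))
    (h𝒯 : ∀ T ∈ 𝒯, T.Nonempty) (S : Finset (Fin m)) {δ : ℝ} (hδ : 0 < δ) :
    AlmostAll (Conductor N) (Near N w
      (fun x => ∀ k ∈ S, Mi (e k) 𝒯 x) ((kappa ^ 𝒯.card) ^ S.card) δ) := by
  have key := lawX0 hN (m := S.card) (e := fun j => e (S.equivFin.symm j)) (fun j => he _)
    (fun j => hr _) (fun j j' h => ha _ _ fun h' => h (S.equivFin.symm.injective (Subtype.ext h')))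
    w n hn 𝒯 h𝒯 hδ
  have e0 : kappa ^ (S.card * 𝒯.card) = (kappa ^ 𝒯.card) ^ S.card := by
    rw [← pow_mul, mul_comm]
  rw [e0] at key
  refine key.mono fun f hf h => h.congr fun x hx => ?_
  unfold Ex Mi
  constructor
  · intro h' k hk T hT
    have := h' T hT (S.equivFin ⟨k, hk⟩)
    simpa using this
  · intro h' T hT j
    exact h' _ (S.equivFin.symm j).2 T hT

/-- the indicator -/
noncomputable def ind (p : Prop) : ℝ := if p then 1 else 0

lemma ind_pos {p : Prop} (h : p) : ind p = 1 := if_pos h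

lemma ind_neg {p : Prop} (h : ¬ p) : ind p = 0 := if_neg h

/-- none of the curves -/
theorem law_none {N : ℕ} (hN : 0 < N) {m : ℕ} {e : Fin m → Fin 3 → ℤ}
    (he : ∀ k, Kane N (e k)) (hr : ∀ k, ∃ r, SelRank (e k) (2 * r))
    (ha : ∀ k k', k ≠ k' → Apart (e k) (e k'))
    (w : Bool) (n : ℕ) (hn : w = true → 2 ≤ n) (𝒯 : Finset (Finset (Fin n)))
    (h𝒯 : ∀ T ∈ 𝒯, T.Nonempty) {δ : ℝ} (hδ : 0 < δ) :
    AlmostAll (Conductor N) (Near N w
      (fun x => ∀ k, ¬ Mi (e k) 𝒯 x) ((1 - kappa ^ 𝒯.card) ^ m) δ) := by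
  have hδ' : 0 < δ / 2 ^ m := by positivity
  have key := (law_sub hN he hr ha w n hn 𝒯 h𝒯 ∅ hδ').ball (univ : Finset (Finset (Fin m)))
    fun S _ => law_sub hN he hr ha w n hn 𝒯 h𝒯 S hδ'
  refine key.mono fun f hf h => ?_
  obtain ⟨⟨h1, h2, -⟩, h3⟩ := h
  refine ⟨h1, h2, ?_⟩
  have hc : (0 : ℝ) < (fam N w n f).ncard := by exact_mod_cast h2
  set G : Finset (Fin n → ℕ) := h1.toFinset with hG
  have hP : ∀ P : (Fin n → ℕ) → Prop, ({x ∈ fam N w n f | P x}.ncard : ℝ) =
      ∑ x ∈ G, ind (P x) := by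
    intro P
    unfold ind
    rw [sum_boole, ← Set.ncard_coe_finset]
    congr 2
    ext x
    rw [Set.mem_ofPred_eq, mem_coe, mem_filter, hG, Set.Finite.mem_toFinset]
  have e1 : (({x ∈ fam N w n f | ∀ k, ¬ Mi (e k) 𝒯 x}.ncard : ℕ) : ℝ) =
      ∑ S : Finset (Fin m), (-1) ^ S.card *
        (({x ∈ fam N w n f | ∀ k ∈ S, Mi (e k) 𝒯 x}.ncard : ℕ) : ℝ) := by
    rw [hP]
    simp only [hP, mul_sum]
    rw [sum_comm]
    refine sum_congr rfl fun x _ => ?_
    have e2 : ind (∀ k, ¬ Mi (e k) 𝒯 x) = ∏ k : Fin m, (-ind (Mi (e k) 𝒯 x) + 1) := by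
      by_cases h : ∀ k, ¬ Mi (e k) 𝒯 x
      · rw [ind_pos h]
        symm
        refine prod_eq_one fun k _ => ?_
        rw [ind_neg (h k)]
        norm_num
      · rw [ind_neg h]
        push Not at h
        obtain ⟨k, hk⟩ := h
        symm
        refine prod_eq_zero (mem_univ k) ?_
        rw [ind_pos hk]
        norm_num
    rw [e2, prod_add, ← Finset.powerset_univ]
    refine sum_congr rfl fun S _ => ?_
    rw [prod_const_one, mul_one, prod_neg]
    congr 1
    by_cases h : ∀ k ∈ S, Mi (e k) 𝒯 x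
    · rw [ind_pos h]
      exact prod_eq_one fun k hk => ind_pos (h k hk)
    · rw [ind_neg h]
      push Not at h
      obtain ⟨k, hk, hk'⟩ := h
      exact prod_eq_zero hk (ind_neg hk')
  set q : ℝ := kappa ^ 𝒯.card with hq
  have e3 : (1 - q) ^ m = ∑ S : Finset (Fin m), (-1) ^ S.card * q ^ S.card := by
    have e4 : (1 - q) ^ m = ∏ k : Fin m, (-q + 1) := by
      rw [prod_const, card_univ, Fintype.card_fin]
      congr 1
      ring
    rw [e4, prod_add, ← Finset.powerset_univ]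
    refine sum_congr rfl fun S _ => ?_
    rw [prod_const_one, mul_one, prod_const, neg_pow]
  rw [e1, e3, sum_div, ← sum_sub_distrib]
  refine (abs_sum_le_sum_abs _ _).trans ?_
  have e5 : δ = ∑ S : Finset (Fin m), δ / 2 ^ m := by
    rw [sum_const, card_univ, Fintype.card_finset, Fintype.card_fin, nsmul_eq_mul]
    push_cast
    field_simp
  rw [e5]
  refine sum_le_sum fun S hS => ?_
  rw [mul_div_assoc, ← mul_sub, abs_mul, abs_pow, abs_neg, abs_one, one_pow, one_mul]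
  exact (h3 S hS).2.2

/-- **at least one of the curves** -/
theorem law_one {N : ℕ} (hN : 0 < N) {m : ℕ} {e : Fin m → Fin 3 → ℤ}
    (he : ∀ k, Kane N (e k)) (hr : ∀ k, ∃ r, SelRank (e k) (2 * r))
    (ha : ∀ k k', k ≠ k' → Apart (e k) (e k'))
    (w : Bool) (n : ℕ) (hn : w = true → 2 ≤ n) (𝒯 : Finset (Finset (Fin n)))
    (h𝒯 : ∀ T ∈ 𝒯, T.Nonempty) {δ : ℝ} (hδ : 0 < δ) :
    AlmostAll (Conductor N) (Near N w
      (fun x => ∃ k, Mi (e k) 𝒯 x) (1 - (1 - kappa ^ 𝒯.card) ^ m) δ) := by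
  refine (law_none hN he hr ha w n hn 𝒯 h𝒯 hδ).mono fun f hf h => ?_
  obtain ⟨h1, h2, h3⟩ := h
  refine ⟨h1, h2, ?_⟩
  have hc : (0 : ℝ) < (fam N w n f).ncard := by exact_mod_cast h2
  have e1 : {x ∈ fam N w n f | ∃ k, Mi (e k) 𝒯 x} =
      fam N w n f \ {x ∈ fam N w n f | ∀ k, ¬ Mi (e k) 𝒯 x} := by
    ext x
    constructor
    · rintro ⟨hx, k, hk⟩
      exact ⟨hx, fun h => h.2 k hk⟩
    · rintro ⟨hx, h⟩
      refine ⟨hx, ?_⟩
      by_contra hcon
      push Not at hcon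
      exact h ⟨hx, hcon⟩
  have hsub : {x ∈ fam N w n f | ∀ k, ¬ Mi (e k) 𝒯 x} ⊆ fam N w n f := fun x hx => hx.1
  rw [e1, Set.ncard_sdiff hsub (h1.subset hsub), Nat.cast_sub (Set.ncard_le_ncard hsub h1),
    sub_div, div_self hc.ne']
  rw [← abs_neg] at h3
  refine le_trans (le_of_eq ?_) h3
  congr 1
  ring

/-- **for every product there is a curve with a minimal 2-Selmer group** -/
theorem law_some {N : ℕ} (hN : 0 < N) {m : ℕ} {e : Fin m → Fin 3 → ℤ}
    (he : ∀ k, Kane N (e k)) (hr : ∀ k, ∃ r, SelRank (e k) (2 * r))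
    (ha : ∀ k k', k ≠ k' → Apart (e k) (e k'))
    (w : Bool) (n : ℕ) (hn : w = true → 2 ≤ n) {δ : ℝ} (hδ : 0 < δ) :
    AlmostAll (Conductor N) (AtLeast N w
      (fun x => ∀ T : Finset (Fin n), T.Nonempty →
        ∃ k, SelRank (tw (∏ i ∈ T, (x i : ℤ)) (e k)) 0)
      (1 - (2 ^ n - 1) * (1 - kappa) ^ m) δ) := by
  have hδ' : 0 < δ / 2 ^ n := by positivity
  have h0 := lawX0 hN he hr ha w n hn ∅ (fun T hT => absurd hT (notMem_empty T)) hδ
  have key := h0.ball ((univ : Finset (Finset (Fin n))).erase ∅)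
    fun T hT => law_none hN he hr ha w n hn {T}
      (fun T' hT' => by
        rw [mem_singleton.1 hT']
        exact nonempty_iff_ne_empty.2 (ne_of_mem_erase hT)) hδ'
  refine key.mono fun f hf h => ?_
  obtain ⟨⟨h1, h2, -⟩, h3⟩ := h
  refine ⟨h1, h2, ?_⟩
  have hc : (0 : ℝ) < (fam N w n f).ncard := by exact_mod_cast h2
  set good : Set (Fin n → ℕ) := {x ∈ fam N w n f | ∀ T : Finset (Fin n), T.Nonempty →
    ∃ k, SelRank (tw (∏ i ∈ T, (x i : ℤ)) (e k)) 0} with hgood
  set bad : Finset (Fin n) → Set (Fin n → ℕ) := fun T =>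
    {x ∈ fam N w n f | ∀ k, ¬ Mi (e k) {T} x} with hbad
  have hsub : fam N w n f ⊆ good ∪ ⋃ T ∈ (univ : Finset (Finset (Fin n))).erase ∅, bad T := by
    intro x hx
    by_cases h : x ∈ good
    · exact Or.inl h
    · refine Or.inr ?_
      have h' : ¬ ∀ T : Finset (Fin n), T.Nonempty →
          ∃ k, SelRank (tw (∏ i ∈ T, (x i : ℤ)) (e k)) 0 := fun hh => h ⟨hx, hh⟩
      push Not at h'
      obtain ⟨T, hT, hk⟩ := h'
      rw [Set.mem_iUnion₂]
      exact ⟨T, mem_erase.2 ⟨nonempty_iff_ne_empty.1 hT, mem_univ _⟩, hx,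
        fun k h => hk k (h T (mem_singleton_self T))⟩
  have hfg : good.Finite := h1.subset fun x hx => hx.1
  have hfb : ∀ T, (bad T).Finite := fun T => h1.subset fun x hx => hx.1
  have hu : (⋃ T ∈ (univ : Finset (Finset (Fin n))).erase ∅, bad T).Finite :=
    Set.Finite.biUnion (Finset.finite_toSet _) fun T _ => hfb T
  have hle : (fam N w n f).ncard ≤ good.ncard +
      ∑ T ∈ (univ : Finset (Finset (Fin n))).erase ∅, (bad T).ncard := by
    refine (Set.ncard_le_ncard hsub (hfg.union hu)).trans ((Set.ncard_union_le _ _).trans ?_)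
    exact Nat.add_le_add_left (Finset.set_ncard_biUnion_le _ _) _
  have hle' : ((fam N w n f).ncard : ℝ) ≤ good.ncard +
      ∑ T ∈ (univ : Finset (Finset (Fin n))).erase ∅, ((bad T).ncard : ℝ) := by exact_mod_cast hle
  have hb : ∀ T ∈ (univ : Finset (Finset (Fin n))).erase ∅, ((bad T).ncard : ℝ) ≤
      ((1 - kappa) ^ m + δ / 2 ^ n) * (fam N w n f).ncard := by
    intro T hT
    have h4 := (h3 T hT).2.2
    rw [card_singleton, pow_one] at h4
    have h5 := (abs_le.1 h4).2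
    rw [sub_le_iff_le_add, div_le_iff₀ hc] at h5
    linarith
  have hsum := sum_le_sum hb
  have hcard : ((Finset.univ : Finset (Finset (Fin n))).erase ∅).card = 2 ^ n - 1 := by
    rw [Finset.card_erase_of_mem (Finset.mem_univ _), Finset.card_univ, Fintype.card_finset,
      Fintype.card_fin]
  rw [sum_const, hcard, nsmul_eq_mul, Nat.cast_sub Nat.one_le_two_pow] at hsum
  push_cast at hsum
  rw [le_div_iff₀ hc]
  have hk : 0 ≤ (1 - kappa) ^ m := pow_nonneg (by have := kappa_bd.2; linarith) m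
  have h6 : ((2 : ℝ) ^ n - 1) * (δ / 2 ^ n) ≤ δ := by
    have : (0 : ℝ) < 2 ^ n := by positivity
    rw [mul_div_assoc', div_le_iff₀ this]
    nlinarith
  nlinarith

end Pool.Agent.N869.GK.Z
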