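import Pool.Agent.N869.GK.M.Sha
import Pool.Agent.N869.GK.M.Parts
import Pool.Agent.N163.GK.CLS6
import Pool.Agent.N853.GK.SCALE
import Pool.Agent.N853.GK.CJ6
import Pool.Agent.N690.GK.TWU
import Pool.Agent.N372.GK.KTAIL
import Pool.Agent.N869.GK.Z.Def

/-!
# Project GK: the general theorems in the definitions of the hand-ins
-/

set_option autoImplicit false
set_option linter.unusedVariables false
set_option linter.unusedSectionVars false

open scoped Classical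

namespace Pool.Agent.N869.GK.Z

open Finset Filter Topology WeierstrassCurve
open Pool.Agent.Y703.CQ (nr)
open Pool.Agent.N856.JL (sfp sfp_spec)
open Pool.Agent.N869.GK (c4 kap)
open Pool.Agent.N869.GK.D (MM)
open Pool.Agent.N869.GK.H (tps KC rg)
open Pool.Agent.N869.GK.M (CrvB Rts coreG BigM smlM sel_card no_growth growth_le)
open Pool.Agent.N869.GK.N (Unr)
open Pool.Agent.TH841.SH (SelG)
open Pool.Agent.W307.RT (Sh)
open Pool.Agent.TH841.NF (EF Gen)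
open Pool.Agent.Y723.QT (Kl F2)

/-- the odd primes dividing `N` -/
def bN (N : ℕ) : Finset ℕ := N.primeFactors.erase 2

lemma bN_mem {N : ℕ} (hN : 0 < N) {l : ℕ} : l ∈ bN N ↔ l.Prime ∧ l ≠ 2 ∧ l ∣ N := by
  unfold bN
  rw [mem_erase, Nat.mem_primeFactors]
  constructor
  · rintro ⟨h1, h2, h3, -⟩
    exact ⟨h2, h1, h3⟩
  · rintro ⟨h1, h2, h3⟩
    exact ⟨h2, h1, h3, hN.ne'⟩

lemma cop_iff {N : ℕ} (hN : 0 < N) (f : ℕ) : f.Coprime (MM (bN N)) ↔ f.Coprime (2 * N) := by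
  have h1 : ∀ M : ℕ, (∀ p : ℕ, p.Prime → (p ∣ M ↔ p = 2 ∨ p ∣ N)) →
      (f.Coprime M ↔ ∀ p : ℕ, p.Prime → p ∣ f → ¬ (p = 2 ∨ p ∣ N)) := by
    intro M hM
    constructor
    · intro h p hp hpf hpM
      exact Nat.Prime.not_coprime_iff_dvd.2 ⟨p, hp, hpf, (hM p hp).2 hpM⟩ h
    · intro h
      by_contra hcon
      obtain ⟨p, hp, hpf, hpM⟩ := Nat.Prime.not_coprime_iff_dvd.1 hcon
      exact h p hp hpf ((hM p hp).1 hpM)
  rw [h1 (MM (bN N)), h1 (2 * N)]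
  · intro p hp
    rw [hp.dvd_mul, Nat.prime_dvd_prime_iff_eq hp Nat.prime_two]
  · intro p hp
    unfold MM
    rw [hp.dvd_mul]
    refine or_congr ?_ ?_ |>.trans ?_ (b := p = 2 ∨ (p ≠ 2 ∧ p ∣ N))
    · constructor
      · intro h
        have : p ∣ 2 ^ 3 := by simpa using h
        exact (Nat.prime_dvd_prime_iff_eq hp Nat.prime_two).1 (hp.dvd_of_dvd_pow this)
      · rintro rfl
        norm_num
    · rw [Prime.dvd_finset_prod_iff hp.prime]
      constructor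
      · rintro ⟨l, hl, h⟩
        obtain ⟨h2, h3, h4⟩ := (bN_mem hN).1 hl
        have h5 : p = l := (Nat.prime_dvd_prime_iff_eq hp h2).1 h
        rw [h5]
        exact ⟨h3, h4⟩
      · rintro ⟨h2, h3⟩
        exact ⟨p, (bN_mem hN).2 ⟨hp, h2, h3⟩, dvd_rfl⟩
    · constructor
      · rintro (h | h)
        · exact Or.inl h
        · exact Or.inr h.2
      · rintro (h | h)
        · exact Or.inl h
        · by_cases h2 : p = 2
          · exact Or.inl h2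
          · exact Or.inr ⟨h2, h⟩

/-- the tuples of divisors of `f`; if `w = true`, every prime divisor of `f` divides one of them -/
def fam (N : ℕ) (w : Bool) (n f : ℕ) : Set (Fin n → ℕ) :=
  {x | (∀ i, x i ∣ f ∧ Disc N (x i)) ∧ Independent x ∧
    (w = true → ∀ p : ℕ, p.Prime → p ∣ f → ∃ i, p ∣ x i)}

lemma fam_eq {N : ℕ} (hN : 0 < N) (w : Bool) (n f : ℕ) : tps (bN N) w n f = fam N w n f := by
  ext x
  unfold tps fam
  simp only [Set.mem_setOf_eq]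
  refine and_congr ?_ Iff.rfl
  refine forall_congr' fun i => and_congr_right fun _ => ?_
  unfold Disc
  refine and_congr_right fun _ => ?_
  constructor
  · intro h p hp hp2 hpN
    have h1 := h p ((bN_mem hN).2 ⟨hp, hp2, hpN⟩)
    unfold nr at h1
    by_contra hcon
    rw [if_neg hcon] at h1
    exact absurd h1 (by decide)
  · intro h l hl
    obtain ⟨h1, h2, h3⟩ := (bN_mem hN).1 hl
    unfold nr
    rw [if_pos (h l h1 h2 h3)]

/-- the roots of the curve -/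
lemma rts {N : ℕ} {e : Fin 3 → ℤ} (h : Kane N e) : Rts (cA e) (cB e) e := by
  have h2 : e 2 = -(e 0) - e 1 := by linarith [h.sum]
  have h01 : e 0 ≠ e 1 := fun h3 => absurd (h.inj h3) (by decide)
  have h02 : e 0 ≠ e 2 := fun h3 => absurd (h.inj h3) (by decide)
  have h12 : e 1 ≠ e 2 := fun h3 => absurd (h.inj h3) (by decide)
  refine ⟨?_, ?_⟩
  · have e1 : 4 * (cA e) ^ 3 + 27 * (cB e) ^ 2 =
        -((e 0 - e 1) * (e 0 - e 2) * (e 1 - e 2)) ^ 2 := by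
      unfold cA cB
      rw [h2]
      ring
    rw [e1]
    exact neg_ne_zero.2 (pow_ne_zero 2 (mul_ne_zero (mul_ne_zero (sub_ne_zero.2 h01)
      (sub_ne_zero.2 h02)) (sub_ne_zero.2 h12)))
  · intro x
    unfold cA cB
    rw [h2]
    ring

lemma crvB {N : ℕ} (hN : 0 < N) {e : Fin 3 → ℤ} (h : Kane N e) : CrvB (bN N) e where
  h01 := fun h3 => absurd (h.inj h3) (by decide)
  h02 := fun h3 => absurd (h.inj h3) (by decide)
  h12 := fun h3 => absurd (h.inj h3) (by decide)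
  sub := fun p hp hp2 h3 => by
    refine (bN_mem hN).2 ⟨hp, hp2, ?_⟩
    rcases hp.dvd_mul.1 (h.bad p hp h3) with h4 | h4
    · exact absurd ((Nat.prime_dvd_prime_iff_eq hp Nat.prime_two).1 h4) hp2
    · exact h4
  n1 := h.four₀
  n2 := h.four₁
  n3 := h.four₂

lemma unr {e e' : Fin 3 → ℤ} (h : Apart e e') : Unr e e' := by
  intro σ hσ
  obtain ⟨i, j, hij, h1⟩ := h σ
  exact h1 (hσ i j hij)

lemma E_eq (e : Fin 3 → ℤ) : E e ℚ = Sh (cA e) (cB e) := rfl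

lemma E_EF (e : Fin 3 → ℤ) (F : Type) [Field F] : E e F = EF (cA e) (cB e) F := rfl

lemma cA_tw (t : ℤ) (e : Fin 3 → ℤ) : cA (tw t e) = t ^ 2 * cA e := by
  unfold cA tw
  ring

lemma cB_tw (t : ℤ) (e : Fin 3 → ℤ) : cB (tw t e) = t ^ 3 * cB e := by
  unfold cB tw
  ring

lemma E_tw (t : ℤ) (e : Fin 3 → ℤ) : E (tw t e) ℚ = Sh (t ^ 2 * cA e) (t ^ 3 * cB e) := by
  rw [E_eq, cA_tw, cB_tw]

/-- the two definitions of the rank agree -/
lemma rk_eq (W : WeierstrassCurve ℚ) :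
    Pool.Agent.TH841.NF.D.rk W = Module.finrank ℤ W.toAffine.Point := by
  unfold Pool.Agent.TH841.NF.D.rk
  have h : Classical.decEq ℚ = (inferInstance : DecidableEq ℚ) := Subsingleton.elim _ _
  rw [h]

/-- the elements of order two -/
noncomputable def twoE (W : WeierstrassCurve ℚ) :
    {x : Pool.Agent.TH841.NF.D.Sha W // x + x = 0} ≃
      {x : Pool.Agent.TH841.SH.D.Sha W // x + x = 0} :=
  (Pool.Agent.R413.SJ.ShaQ.iso W).toEquiv.subtypeEquiv fun x => by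
    show x + x = 0 ↔ Pool.Agent.R413.SJ.ShaQ.iso W x + Pool.Agent.R413.SJ.ShaQ.iso W x = 0
    rw [← map_add]
    exact (map_eq_zero_iff _ (Pool.Agent.R413.SJ.ShaQ.iso W).injective).symm

/-- the order of the 2-Selmer group of a twist -/
lemma sel_tw {N : ℕ} {e : Fin 3 → ℤ} (h : Kane N e) {t : ℤ} (ht : t ≠ 0) :
    Finite {x : Sha ℚ (tw t e) // x + x = 0} ∧
    2 ^ (rank ℚ (tw t e) + 2) * Nat.card {x : Sha ℚ (tw t e) // x + x = 0} =
      (SelG (t * e 0) (t * e 1) (t * e 2)).ncard := by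
  obtain ⟨-, -, h3, h4⟩ := sel_card (rts h) ht
  have e1 := twoE (Sh (t ^ 2 * cA e) (t ^ 3 * cB e))
  unfold rank Sha
  rw [E_tw, rk_eq, Nat.card_congr e1]
  exact ⟨Finite.of_equiv _ e1.symm, h4⟩

lemma selrank_iff {N : ℕ} {e : Fin 3 → ℤ} (h : Kane N e) {t : ℤ} (ht : t ≠ 0) (r : ℕ) :
    SelRank (tw t e) r ↔ (SelG (t * e 0) (t * e 1) (t * e 2)).ncard = 2 ^ (r + 2) := by
  obtain ⟨h1, h2⟩ := sel_tw h ht
  unfold SelRank
  rw [← h2, pow_add, pow_add]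
  constructor
  · rintro ⟨-, h3⟩
    rw [← h3]
    ring
  · intro h3
    refine ⟨h1, ?_⟩
    have h4 : 2 ^ 2 * (2 ^ rank ℚ (tw t e) * Nat.card {x : Sha ℚ (tw t e) // x + x = 0}) =
        2 ^ 2 * 2 ^ r := by
      linarith
    exact Nat.eq_of_mul_eq_mul_left (by norm_num) h4

lemma tw_one (e : Fin 3 → ℤ) : tw 1 e = e := by
  funext i
  exact one_mul _

lemma selrankle {N : ℕ} {e : Fin 3 → ℤ} (h : Kane N e) {t : ℤ} (ht : t ≠ 0) {r : ℕ}
    (hs : (SelG (t * e 0) (t * e 1) (t * e 2)).ncard ≤ 2 ^ (r + 2)) : SelRankLe (tw t e) r := by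
  obtain ⟨h1, h2⟩ := sel_tw h ht
  refine ⟨h1, ?_⟩
  rw [← h2, pow_add, pow_add] at hs
  have h4 : 2 ^ 2 * (2 ^ rank ℚ (tw t e) * Nat.card {x : Sha ℚ (tw t e) // x + x = 0}) ≤
      2 ^ 2 * 2 ^ r := by
    linarith
  exact Nat.le_of_mul_le_mul_left h4 (by norm_num)

/-- the twists by a number and by its squarefree part -/
lemma sel_sfp (e : Fin 3 → ℤ) {P : ℕ} (hP : 0 < P) :
    SelG ((P : ℤ) * e 0) (P * e 1) (P * e 2) =
      SelG ((sfp P : ℤ) * e 0) (sfp P * e 1) (sfp P * e 2) := by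
  obtain ⟨s, hs, h1, -, -⟩ := sfp_spec hP
  have hs0 : (s : ℤ) ≠ 0 := by exact_mod_cast hs.ne'
  rw [← Pool.Agent.N853.GK.SCALE.t_SCALE ((sfp P : ℤ) * e 0) (sfp P * e 1) (sfp P * e 2) (s : ℤ) hs0]
  have e1 : (P : ℤ) = (s : ℤ) ^ 2 * (sfp P : ℤ) := by
    rw [mul_comm]
    exact_mod_cast h1.symm
  rw [e1]
  congr 1 <;> ring

/-- the 2-Selmer groups of the twists by the products are small -/
def Sml {m : ℕ} (e : Fin m → Fin 3 → ℤ) {n : ℕ} (ρ : Finset (Fin n) → Fin m → ℕ)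
    (𝒯 : Finset (Finset (Fin n))) (x : Fin n → ℕ) : Prop :=
  ∀ T ∈ 𝒯, ∀ k : Fin m, (SelG ((∏ i ∈ T, (x i : ℤ)) * e k 0) ((∏ i ∈ T, (x i : ℤ)) * e k 1)
    ((∏ i ∈ T, (x i : ℤ)) * e k 2)).ncard ≤ 2 ^ (ρ T k + 2)

/-- the proportion of the tuples with the property `P` is at least `q - δ` -/
def AtLeast (N : ℕ) (w : Bool) {n : ℕ} (P : (Fin n → ℕ) → Prop) (q δ : ℝ) (f : ℕ) : Prop :=
  (fam N w n f).Finite ∧ 0 < (fam N w n f).ncard ∧
    q - δ ≤ ({x ∈ fam N w n f | P x}.ncard : ℝ) / ((fam N w n f).ncard : ℝ)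

lemma fam_pos {N : ℕ} {w : Bool} {n f : ℕ} (hf : Conductor N f) {x : Fin n → ℕ}
    (hx : x ∈ fam N w n f) (i : Fin n) : 0 < x i :=
  Nat.pos_of_ne_zero fun h => hf.1.ne_zero (zero_dvd_iff.1 (h ▸ (hx.1 i).1))

lemma AtLeast.mono {N : ℕ} {w : Bool} {n : ℕ} {P Q : (Fin n → ℕ) → Prop} {q δ : ℝ} {f : ℕ}
    (h : AtLeast N w P q δ f) (hPQ : ∀ x ∈ fam N w n f, P x → Q x) : AtLeast N w Q q δ f := by
  obtain ⟨h1, h2, h3⟩ := h
  refine ⟨h1, h2, h3.trans ?_⟩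
  refine div_le_div_of_nonneg_right (Nat.cast_le.2 (Set.ncard_le_ncard ?_
    (h1.subset fun x hx => hx.1))) (Nat.cast_nonneg _)
  rintro x ⟨hx1, hx2⟩
  exact ⟨hx1, hPQ x hx1 hx2⟩

lemma AlmostAll.mono {P Q Q' : ℕ → Prop} (h : AlmostAll P Q) (hQ : ∀ f, P f → Q f → Q' f) :
    AlmostAll P Q' := by
  unfold AlmostAll at h ⊢
  refine tendsto_of_tendsto_of_tendsto_of_le_of_le h tendsto_const_nhds ?_ ?_
  · intro X
    refine div_le_div_of_nonneg_right (Nat.cast_le.2 (card_le_card ?_)) (Nat.cast_nonneg _)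
    intro f hf
    simp only [mem_filter] at hf ⊢
    exact ⟨hf.1, hf.2.1, hQ f hf.2.1 hf.2.2⟩
  · intro X
    refine div_le_one_of_le₀ (Nat.cast_le.2 (card_le_card ?_)) (Nat.cast_nonneg _)
    intro f hf
    simp only [mem_filter] at hf ⊢
    exact ⟨hf.1, hf.2.1⟩

/-- **The general theorem.** -/
theorem gen {N : ℕ} (hN : 0 < N) {m : ℕ} {e : Fin m → Fin 3 → ℤ} (he : ∀ k, Kane N (e k))
    {r : Fin m → ℕ} (hr : ∀ k, SelRank (e k) (r k)) (ha : ∀ k k', k ≠ k' → Apart (e k) (e k'))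
    (w : Bool) (n : ℕ) (hn : w = true → 2 ≤ n) (𝒯 : Finset (Finset (Fin n)))
    (h𝒯 : ∀ T ∈ 𝒯, T.Nonempty) (ρ : Finset (Fin n) → Fin m → ℕ) {δ : ℝ} (hδ : 0 < δ) :
    AlmostAll (Conductor N)
      (AtLeast N w (Sml e ρ 𝒯) (∏ T ∈ 𝒯, ∏ k, KC (r k) (ρ T k)) δ) := by
  have hb : ∀ l ∈ bN N, l.Prime ∧ l ≠ 2 := fun l hl =>
    ⟨((bN_mem hN).1 hl).1, ((bN_mem hN).1 hl).2.1⟩
  have hcard : ∀ k, (SelG (e k 0) (e k 1) (e k 2)).ncard = 2 ^ (2 * 1 + r k) := by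
    intro k
    have h1 := (selrank_iff (he k) one_ne_zero (r k)).1 (by rw [tw_one]; exact hr k)
    rw [one_mul, one_mul, one_mul] at h1
    rw [h1]
    congr 1
    ring
  have key := coreG Pool.Agent.N869.GK.M.t_ASYGM' Pool.Agent.N163.GK.t_CLS6
    Pool.Agent.N853.GK.CJ6.t_CJ6 Pool.Agent.N853.GK.SCALE.t_SCALE hb (C := Fin m) (e := e)
    (fun k => crvB hN (he k)) (fun k k' h => unr (ha k k' h)) (kk := fun _ => 1) (ee := r) hcard
    w n hn 𝒯 h𝒯 ρ hδ (fun _ => Classical.propDecidable _) (fun _ => Classical.propDecidable _)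
  have key' : AlmostAll (fun f => Squarefree f ∧ f.Coprime (MM (bN N)))
      (BigM (bN N) e r w ρ 𝒯 δ) := by
    unfold AlmostAll count
    exact key
  have e0 : (fun f : ℕ => Squarefree f ∧ f.Coprime (MM (bN N))) = Conductor N :=
    funext fun f => propext (and_congr_right fun _ => cop_iff hN f)
  rw [e0] at key'
  refine key'.mono fun f hf hB => ?_
  obtain ⟨h1, h2, h3⟩ := hB
  rw [fam_eq hN] at h1 h2 h3
  refine AtLeast.mono (P := smlM e ρ 𝒯) ⟨h1, h2, h3⟩ ?_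
  intro x hx hs T hT k
  have hpos : 0 < ∏ i ∈ T, x i := prod_pos fun i _ => fam_pos hf hx i
  have h4 := (hs T hT k _ rfl).2
  rw [← sel_sfp (e k) hpos] at h4
  push_cast at h4
  exact h4

end Pool.Agent.N869.GK.Z
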