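import Pool.Agent.N869.GK.Z.Max
import Mathlib.RingTheory.Polynomial.Bernstein

/-!
# Project GK: the number of the minimal twists, a law of large numbers inside each tuple
-/

set_option autoImplicit false
set_option linter.unusedVariables false
set_option linter.unusedSectionVars false

open scoped Classical

namespace Pool.Agent.N869.GK.Z

open Finset Filter Topology
open Pool.Agent.N869.GK (c4 kap)
open Pool.Agent.N869.GK.H (KC rg kc_bd)

lemma kappa_bd1 : kappa ≤ 1 := by have := kappa_bd.2; linarith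

/-- two products -/
lemma prod_diff {ι : Type} (S : Finset ι) (x y : ι → ℝ) (h0 : ∀ i ∈ S, 0 ≤ x i)
    (h1 : ∀ i ∈ S, x i ≤ y i) (h2 : ∀ i ∈ S, y i ≤ 1) :
    ∏ i ∈ S, y i - ∏ i ∈ S, x i ≤ ∑ i ∈ S, (y i - x i) := by
  induction S using Finset.induction_on with
  | empty => simp
  | insert a S ha ih =>
    have h3 := ih (fun i hi => h0 i (mem_insert_of_mem hi)) (fun i hi => h1 i (mem_insert_of_mem hi))
      (fun i hi => h2 i (mem_insert_of_mem hi))
    have h4 : ∏ i ∈ S, y i ≤ 1 := prod_le_one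
      (fun i hi => (h0 i (mem_insert_of_mem hi)).trans (h1 i (mem_insert_of_mem hi)))
      fun i hi => h2 i (mem_insert_of_mem hi)
    have h4' : ∏ i ∈ S, x i ≤ ∏ i ∈ S, y i := prod_le_prod
      (fun i hi => h0 i (mem_insert_of_mem hi)) fun i hi => h1 i (mem_insert_of_mem hi)
    have h5 := h0 a (mem_insert_self a S)
    have h6 := h1 a (mem_insert_self a S)
    have h7 := h2 a (mem_insert_self a S)
    rw [prod_insert ha, prod_insert ha, sum_insert ha]
    nlinarith [mul_nonneg (sub_nonneg.2 h6) (sub_nonneg.2 h4),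
      mul_nonneg (sub_nonneg.2 (h6.trans h7)) (sub_nonneg.2 h4')]

section count

variable {n m : ℕ} {𝒯 : Finset (Finset (Fin n))}

/-- the vectors with the zeros exactly in `J` -/
lemma sum_zero {r : Fin m → ℕ} (hr : ∀ k, r k % 2 = 0) (B : ℕ)
    (J : Finset ({T // T ∈ 𝒯} × Fin m)) :
    ∑ ρ ∈ (Fintype.piFinset (fun a : {T // T ∈ 𝒯} × Fin m => rg (r a.2) B)).filter
      (fun ρ => univ.filter (fun a => ρ a = 0) = J), ∏ a, law (ρ a) =
      ∏ a : {T // T ∈ 𝒯} × Fin m, (if a ∈ J then kappa else KC (r a.2) B - kappa) := by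
  have h0 : ∀ k, 0 ∈ rg (r k) B := fun k => mem_filter.2 ⟨mem_range.2 (by omega), by
    rw [hr k]⟩
  have e1 : (Fintype.piFinset (fun a : {T // T ∈ 𝒯} × Fin m => rg (r a.2) B)).filter
      (fun ρ => univ.filter (fun a => ρ a = 0) = J) =
      Fintype.piFinset (fun a : {T // T ∈ 𝒯} × Fin m =>
        if a ∈ J then {0} else (rg (r a.2) B).erase 0) := by
    ext ρ
    rw [mem_filter, Fintype.mem_piFinset, Fintype.mem_piFinset]
    constructor
    · rintro ⟨h1, h2⟩ a
      by_cases ha : a ∈ J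
      · rw [if_pos ha, mem_singleton]
        rw [← h2] at ha
        exact (mem_filter.1 ha).2
      · rw [if_neg ha, mem_erase]
        refine ⟨fun h => ha ?_, h1 a⟩
        rw [← h2]
        exact mem_filter.2 ⟨mem_univ _, h⟩
    · intro h
      refine ⟨fun a => ?_, ?_⟩
      · have h3 := h a
        by_cases ha : a ∈ J
        · rw [if_pos ha, mem_singleton] at h3
          rw [h3]
          exact h0 _
        · rw [if_neg ha, mem_erase] at h3
          exact h3.2
      · ext a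
        rw [mem_filter]
        have h3 := h a
        by_cases ha : a ∈ J
        · rw [if_pos ha, mem_singleton] at h3
          exact ⟨fun _ => ha, fun _ => ⟨mem_univ _, h3⟩⟩
        · rw [if_neg ha, mem_erase] at h3
          exact ⟨fun h => absurd h.2 h3.1, fun h => absurd h ha⟩
  rw [e1, ← Finset.prod_univ_sum (fun a : {T // T ∈ 𝒯} × Fin m =>
    if a ∈ J then ({0} : Finset ℕ) else (rg (r a.2) B).erase 0) (fun _ j => law j)]
  refine prod_congr rfl fun a _ => ?_
  by_cases ha : a ∈ J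
  · rw [if_pos ha, if_pos ha, sum_singleton, law_zero]
  · rw [if_neg ha, if_neg ha, sum_erase_eq_sub (h0 _), law_zero]
    rfl

end count

/-- the index set -/
abbrev Ix {n : ℕ} (𝒯 : Finset (Finset (Fin n))) (m : ℕ) : Type := {T // T ∈ 𝒯} × Fin m

/-- the set of the minimal twists -/
noncomputable def mins {m : ℕ} (e : Fin m → Fin 3 → ℤ) {n : ℕ} (𝒯 : Finset (Finset (Fin n)))
    (x : Fin n → ℕ) : Finset ({T // T ∈ 𝒯} × Fin m) :=
  univ.filter fun a => SelRank (tw (∏ i ∈ a.1.1, (x i : ℤ)) (e a.2)) 0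

/-- **the set of the minimal twists** -/
theorem law_sets {N : ℕ} (hN : 0 < N) {m : ℕ} {e : Fin m → Fin 3 → ℤ}
    (he : ∀ k, Kane N (e k)) {r : Fin m → ℕ} (hr : ∀ k, SelRank (e k) (r k))
    (hr2 : ∀ k, r k % 2 = 0) (ha : ∀ k k', k ≠ k' → Apart (e k) (e k'))
    (w : Bool) (n : ℕ) (hn : w = true → 2 ≤ n) (𝒯 : Finset (Finset (Fin n)))
    (h𝒯 : ∀ T ∈ 𝒯, T.Nonempty) (𝒥 : Finset (Finset (Ix 𝒯 m)))
    {δ : ℝ} (hδ : 0 < δ) :
    AlmostAll (Conductor N) (AtLeast N w (fun x => mins e 𝒯 x ∈ 𝒥)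
      (∑ J ∈ 𝒥, kappa ^ J.card * (1 - kappa) ^ (m * 𝒯.card - J.card)) δ) := by
  have hcI : Fintype.card (Ix 𝒯 m) = m * 𝒯.card := by
    rw [Fintype.card_prod, Fintype.card_coe, Fintype.card_fin, mul_comm]
  obtain ⟨B, -, hB⟩ := exists_big (𝒥.card * (m * 𝒯.card)) 0 (half_pos hδ)
  set t : ℝ := 2 / 2 ^ (B * (B + 1) / 2) with ht
  set V : Finset (Ix 𝒯 m → ℕ) := Fintype.piFinset (fun a : Ix 𝒯 m => rg (r a.2) B) with hV
  set Zs : (Ix 𝒯 m → ℕ) → Finset (Ix 𝒯 m) := fun ρ => univ.filter (fun a => ρ a = 0) with hZs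
  have hpar : ∀ ρ ∈ V, ∀ a, ρ a % 2 = r a.2 % 2 := fun ρ hρ a =>
    (mem_filter.1 (Fintype.mem_piFinset.1 hρ a)).2
  have key := law_set hN he hr ha w n hn 𝒯 h𝒯 (V.filter fun ρ => Zs ρ ∈ 𝒥)
    (fun ρ hρ => hpar ρ (mem_filter.1 hρ).1) (half_pos hδ)
  have e1 : ∑ ρ ∈ V.filter (fun ρ => Zs ρ ∈ 𝒥), ∏ a, law (ρ a) =
      ∑ J ∈ 𝒥, ∏ a : Ix 𝒯 m, (if a ∈ J then kappa else KC (r a.2) B - kappa) := by
    rw [← sum_fiberwise_of_maps_to (s := V.filter fun ρ => Zs ρ ∈ 𝒥) (t := 𝒥) (g := Zs)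
      fun ρ hρ => (mem_filter.1 hρ).2]
    refine sum_congr rfl fun J hJ => ?_
    rw [← sum_zero hr2 B J]
    refine sum_congr ?_ fun _ _ => rfl
    ext ρ
    rw [mem_filter, mem_filter, mem_filter]
    constructor
    · rintro ⟨⟨h1, -⟩, h2⟩
      exact ⟨h1, h2⟩
    · rintro ⟨h1, h2⟩
      exact ⟨⟨h1, by
        show Zs ρ ∈ 𝒥
        rw [show Zs ρ = J from h2]
        exact hJ⟩, h2⟩
  have hk0 := kappa_pos
  have hk1 := kappa_bd1
  have hKk : ∀ k, kappa ≤ KC (r k) B := by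
    intro k
    rw [← law_zero]
    have h0 : 0 ∈ rg (r k) B := mem_filter.2 ⟨mem_range.2 (by omega), by rw [hr2 k]⟩
    exact single_le_sum (f := fun j => kap j) (fun j _ => (by
      show 0 ≤ kap j
      rw [← law_eq]
      exact (div_pos kappa_pos (by positivity)).le.trans (law_low j))) h0
  have h2 : ∀ J ∈ 𝒥, kappa ^ J.card * (1 - kappa) ^ (m * 𝒯.card - J.card) - (m * 𝒯.card : ℕ) * t ≤
      ∏ a : Ix 𝒯 m, (if a ∈ J then kappa else KC (r a.2) B - kappa) := by
    intro J hJ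
    have h3 := prod_diff (univ : Finset (Ix 𝒯 m)) (fun a => if a ∈ J then kappa else KC (r a.2) B - kappa)
      (fun a => if a ∈ J then kappa else 1 - kappa) (fun a _ => by
        show 0 ≤ (if a ∈ J then kappa else KC (r a.2) B - kappa)
        split_ifs
        · exact hk0.le
        · exact sub_nonneg.2 (hKk _)) (fun a _ => by
        show (if a ∈ J then kappa else KC (r a.2) B - kappa) ≤ (if a ∈ J then kappa else 1 - kappa)
        split_ifs
        · exact le_rfl
        · linarith [(kc_bd (r a.2) B).2]) (fun a _ => by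
        show (if a ∈ J then kappa else 1 - kappa) ≤ 1
        split_ifs
        · exact hk1
        · linarith)
    have h4 : ∏ a : Ix 𝒯 m, (if a ∈ J then kappa else 1 - kappa) =
        kappa ^ J.card * (1 - kappa) ^ (m * 𝒯.card - J.card) := by
      rw [prod_ite, prod_const, prod_const]
      have c1 : (univ.filter fun a : Ix 𝒯 m => a ∈ J) = J := by
        ext a
        simp
      have c2 : (univ.filter fun a : Ix 𝒯 m => ¬ a ∈ J).card = m * 𝒯.card - J.card := by
        have c3 := card_filter_add_card_filter_not (s := (univ : Finset (Ix 𝒯 m))) (fun a => a ∈ J)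
        rw [c1, card_univ, hcI] at c3
        omega
      rw [c1, c2]
    have h5 : ∑ a : Ix 𝒯 m, ((if a ∈ J then kappa else 1 - kappa) -
        (if a ∈ J then kappa else KC (r a.2) B - kappa)) ≤ ∑ a : Ix 𝒯 m, t := by
      refine sum_le_sum fun a _ => ?_
      have h6 := kc_tail (r a.2) B
      have h7 : 0 ≤ t := by positivity
      split_ifs
      · linarith
      · linarith
    rw [sum_const, card_univ, hcI, nsmul_eq_mul] at h5
    rw [h4] at h3
    linarith
  have h3 : ∑ J ∈ 𝒥, kappa ^ J.card * (1 - kappa) ^ (m * 𝒯.card - J.card) - δ / 2 ≤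
      ∑ J ∈ 𝒥, ∏ a : Ix 𝒯 m, (if a ∈ J then kappa else KC (r a.2) B - kappa) := by
    have h4 := sum_le_sum h2
    rw [sum_sub_distrib, sum_const, nsmul_eq_mul] at h4
    push_cast at hB h4
    linarith
  rw [e1] at key
  refine key.mono fun f hf h => ?_
  obtain ⟨h4, h5, h6⟩ := h
  refine AtLeast.mono (P := fun x => ∃ ρ ∈ V.filter (fun ρ => Zs ρ ∈ 𝒥), Ex e (xt 𝒯 ρ) 𝒯 x)
    ⟨h4, h5, ?_⟩ ?_
  · have h7 := (abs_le.1 h6).1
    have h8 : ∑ J ∈ 𝒥, kappa ^ J.card * (1 - kappa) ^ (m * 𝒯.card - J.card) - δ ≤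
        -(δ / 2) + ∑ J ∈ 𝒥, ∏ a : Ix 𝒯 m, (if a ∈ J then kappa else KC (r a.2) B - kappa) := by
      linarith
    exact h8.trans (by linarith)
  · rintro x hx ⟨ρ, hρ, h⟩
    have h8 := (mem_filter.1 hρ).2
    have h9 : mins e 𝒯 x = Zs ρ := by
      ext ⟨⟨T, hT⟩, k⟩
      have h10 := h T hT k
      rw [xt_mem ρ hT k] at h10
      rw [hZs]
      unfold mins
      rw [mem_filter, mem_filter]
      refine and_congr_right fun _ => ?_
      constructor
      · intro h11
        exact selrank_uniq h10 h11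
      · intro h11
        rw [h11] at h10
        exact h10
    show mins e 𝒯 x ∈ 𝒥
    rw [h9]
    exact h8

/-- the variance of the binomial law -/
lemma bin_var (M : ℕ) (κ : ℝ) : ∑ j ∈ range (M + 1),
    (M * κ - j) ^ 2 * ((M.choose j : ℝ) * (κ ^ j * (1 - κ) ^ (M - j))) = M * κ * (1 - κ) := by
  have h := congrArg (Polynomial.eval κ) (bernsteinPolynomial.variance ℝ M)
  simp only [Polynomial.eval_finsetSum, Polynomial.eval_mul, Polynomial.eval_pow,
    Polynomial.eval_sub, Polynomial.eval_X, Polynomial.eval_natCast, nsmul_eq_mul,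
    bernsteinPolynomial, Polynomial.eval_one] at h
  rw [← h]
  exact sum_congr rfl fun j _ => by ring

/-- Chebyshev's inequality for the binomial law -/
lemma cheb (M : ℕ) {κ ε : ℝ} (h0 : 0 ≤ κ) (h1 : κ ≤ 1) (hε : 0 < ε) (hM : 0 < M) :
    1 - κ * (1 - κ) / (ε ^ 2 * M) ≤
      ∑ j ∈ (range (M + 1)).filter (fun j : ℕ => |(j : ℝ) - κ * M| ≤ ε * M),
        (M.choose j : ℝ) * (κ ^ j * (1 - κ) ^ (M - j)) := by
  have hMr : (0 : ℝ) < M := by exact_mod_cast hM
  set b : ℕ → ℝ := fun j => (M.choose j : ℝ) * (κ ^ j * (1 - κ) ^ (M - j)) with hb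
  have hb0 : ∀ j, 0 ≤ b j := fun j => by
    have : 0 ≤ 1 - κ := by linarith
    positivity
  have hsum : ∑ j ∈ range (M + 1), b j = 1 := by
    have h := add_pow κ (1 - κ) M
    rw [add_sub_cancel, one_pow] at h
    rw [h]
    exact sum_congr rfl fun j _ => by rw [hb]; ring
  have h2 : ∑ j ∈ (range (M + 1)).filter (fun j : ℕ => ¬ |(j : ℝ) - κ * M| ≤ ε * M), b j ≤
      κ * (1 - κ) / (ε ^ 2 * M) := by
    have h3 : ∑ j ∈ (range (M + 1)).filter (fun j : ℕ => ¬ |(j : ℝ) - κ * M| ≤ ε * M),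
        (ε * M) ^ 2 * b j ≤ M * κ * (1 - κ) := by
      rw [← bin_var M κ]
      refine (sum_le_sum fun j hj => ?_).trans
        (sum_le_sum_of_subset_of_nonneg (filter_subset _ _) fun j _ _ =>
          mul_nonneg (sq_nonneg _) (hb0 j))
      refine mul_le_mul_of_nonneg_right ?_ (hb0 j)
      have h4 := not_le.1 (mem_filter.1 hj).2
      have h5 : (M * κ - j) ^ 2 = |(j : ℝ) - κ * M| ^ 2 := by
        rw [sq_abs]
        ring
      rw [h5]
      exact pow_le_pow_left₀ (by positivity) h4.le 2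
    rw [← mul_sum] at h3
    rw [le_div_iff₀ (by positivity)]
    have h6 : (∑ j ∈ (range (M + 1)).filter (fun j : ℕ => ¬ |(j : ℝ) - κ * M| ≤ ε * M), b j) *
        (ε ^ 2 * M) * M ≤ κ * (1 - κ) * M := by
      nlinarith
    exact le_of_mul_le_mul_right h6 hMr
  have h7 := sum_filter_add_sum_filter_not (range (M + 1))
    (fun j : ℕ => |(j : ℝ) - κ * M| ≤ ε * M) b
  rw [hsum] at h7
  linarith

/-- **the number of the minimal twists: law of large numbers inside the tuples** -/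
theorem law_lln {N : ℕ} (hN : 0 < N) {m : ℕ} {e : Fin m → Fin 3 → ℤ}
    (he : ∀ k, Kane N (e k)) (hr : ∀ k, ∃ r, SelRank (e k) (2 * r))
    (ha : ∀ k k', k ≠ k' → Apart (e k) (e k'))
    (w : Bool) (n : ℕ) (hn : w = true → 2 ≤ n) (𝒯 : Finset (Finset (Fin n)))
    (h𝒯 : ∀ T ∈ 𝒯, T.Nonempty) (hM : 0 < m * 𝒯.card) {ε δ : ℝ} (hε : 0 < ε) (hδ : 0 < δ) :
    AlmostAll (Conductor N) (AtLeast N w
      (fun x => |((mins e 𝒯 x).card : ℝ) - kappa * (m * 𝒯.card : ℕ)| ≤ ε * (m * 𝒯.card : ℕ))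
      (1 - kappa * (1 - kappa) / (ε ^ 2 * (m * 𝒯.card : ℕ))) δ) := by
  choose r hr using hr
  set M := m * 𝒯.card with hMdef
  have hcI : Fintype.card (Ix 𝒯 m) = M := by
    rw [Fintype.card_prod, Fintype.card_coe, Fintype.card_fin, mul_comm]
  set p : ℕ → Prop := fun j => |(j : ℝ) - kappa * M| ≤ ε * M with hp
  have key := law_sets hN he hr (fun k => by omega) ha w n hn 𝒯 h𝒯
    ((univ : Finset (Finset (Ix 𝒯 m))).filter fun J => p J.card) hδ
  have e1 : ∑ J ∈ (univ : Finset (Finset (Ix 𝒯 m))).filter (fun J => p J.card),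
      kappa ^ J.card * (1 - kappa) ^ (M - J.card) =
      ∑ j ∈ (range (M + 1)).filter p, (M.choose j : ℝ) * (kappa ^ j * (1 - kappa) ^ (M - j)) := by
    have h := sum_powerset_apply_card (fun j => if p j then kappa ^ j * (1 - kappa) ^ (M - j) else 0)
      (x := (univ : Finset (Ix 𝒯 m)))
    rw [card_univ, hcI, powerset_univ] at h
    rw [sum_filter, h, sum_filter]
    refine sum_congr rfl fun j _ => ?_
    rw [nsmul_eq_mul]
    split_ifs
    · rfl
    · rw [mul_zero]
  rw [e1] at key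
  have h2 := cheb M kappa_pos.le kappa_bd1 hε hM
  refine key.mono fun f hf h => ?_
  obtain ⟨h4, h5, h6⟩ := h
  refine AtLeast.mono (P := fun x => mins e 𝒯 x ∈ (univ : Finset (Finset (Ix 𝒯 m))).filter fun J => p J.card)
    ⟨h4, h5, ?_⟩ fun x hx h => (mem_filter.1 h).2
  linarith

end Pool.Agent.N869.GK.Z
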