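import Pool.Agent.N869.GK.Z.App

/-!
# Project GK: universal bounds for the ranks
-/

set_option autoImplicit false
set_option linter.unusedVariables false
set_option linter.unusedSectionVars false

open scoped Classical

namespace Pool.Agent.N869.GK.Z

open Finset Filter Topology WeierstrassCurve
open Pool.Agent.N869.GK (c4 kap)
open Pool.Agent.N869.GK.H (tps KC rg kc_bd)
open Pool.Agent.N869.GK.M (Rts sel_card triv_of no_growth growth_le rk_field)
open Pool.Agent.TH841.SH (SelG)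
open Pool.Agent.W307.RT (Sh)
open Pool.Agent.TH841.NF (EF Gen)

/-- the order of a finite group of exponent two -/
lemma card_two {G : Type} [AddCommGroup G] (h : Finite {x : G // x + x = 0}) :
    ∃ j, Nat.card {x : G // x + x = 0} = 2 ^ j := by
  let H : AddSubgroup G :=
    { carrier := {x | x + x = 0}
      zero_mem' := by simp
      add_mem' := by
        intro a b ha hb
        simp only [Set.mem_setOf_eq] at ha hb ⊢
        rw [add_add_add_comm, ha, hb, add_zero]
      neg_mem' := by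
        intro a ha
        simp only [Set.mem_setOf_eq] at ha ⊢
        rw [← neg_add, ha, neg_zero] }
  haveI : Finite H := h
  haveI : Finite (Multiplicative H) := h
  have hp : IsPGroup 2 (Multiplicative H) := by
    intro g
    refine ⟨1, ?_⟩
    rw [pow_one]
    apply Multiplicative.toAdd.injective
    rw [toAdd_pow, toAdd_one, two_nsmul]
    exact Subtype.ext (Multiplicative.toAdd g).2
  obtain ⟨j, hj⟩ := IsPGroup.iff_card.1 hp
  exact ⟨j, hj⟩

/-- the 2-Selmer rank exists -/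
lemma exists_selrank {N : ℕ} {e : Fin 3 → ℤ} (h : Kane N e) : ∃ r, SelRank e r := by
  obtain ⟨h1, -⟩ := sel_tw h (t := 1) one_ne_zero
  rw [tw_one] at h1
  obtain ⟨j, hj⟩ := card_two h1
  exact ⟨rank ℚ e + j, h1, by rw [hj, ← pow_add]⟩

/-- the tail -/
lemma kc_tail (s B : ℕ) : 1 - 2 / 2 ^ (B * (B + 1) / 2) ≤ KC s B :=
  Pool.Agent.N372.GKT.t_KTAIL Pool.Agent.N495.GK.t_KAP s B

lemma prod_tail {ι : Type} (S : Finset ι) (x : ι → ℝ) (t : ℝ)
    (h0 : ∀ i ∈ S, 0 ≤ x i) (h1 : ∀ i ∈ S, x i ≤ 1) (h2 : ∀ i ∈ S, 1 - t ≤ x i) :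
    1 - S.card * t ≤ ∏ i ∈ S, x i := by
  induction S using Finset.induction_on with
  | empty => simp
  | insert a S ha ih =>
    have h3 := ih (fun i hi => h0 i (mem_insert_of_mem hi)) (fun i hi => h1 i (mem_insert_of_mem hi))
      (fun i hi => h2 i (mem_insert_of_mem hi))
    have h4 : ∏ i ∈ S, x i ≤ 1 := prod_le_one (fun i hi => h0 i (mem_insert_of_mem hi))
      fun i hi => h1 i (mem_insert_of_mem hi)
    have h5 := h1 a (mem_insert_self a S)
    have h6 := h2 a (mem_insert_self a S)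
    rw [prod_insert ha, card_insert_of_notMem ha]
    push_cast
    nlinarith [mul_nonneg (sub_nonneg.2 h5) (sub_nonneg.2 h4)]

/-- the ranks are small if the 2-Selmer groups are small -/
lemma rank_le {e : Fin 3 → ℤ} {B : ℕ} (h : SelRankLe e B) : rank ℚ e ≤ B := by
  obtain ⟨h1, h2⟩ := h
  have hne : Nonempty {x : Sha ℚ e // x + x = 0} := ⟨⟨0, add_zero 0⟩⟩
  have hpos : 0 < Nat.card {x : Sha ℚ e // x + x = 0} := Nat.card_pos
  have h3 : 2 ^ rank ℚ e ≤ 2 ^ B := le_trans (Nat.le_mul_of_pos_right _ hpos) h2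
  exact (Nat.pow_le_pow_iff_right (by norm_num)).1 h3

/-- the rank over the field -/
lemma rank_field {N : ℕ} {e : Fin 3 → ℤ} (h : Kane N e) {n : ℕ} {d : Fin n → ℕ}
    (hd : ∀ i, 0 < d i) {B : ℕ}
    (hT : ∀ T : Finset (Fin n), T.Nonempty → SelRankLe (tw (∏ i ∈ T, (d i : ℤ)) e) B)
    (F : Type) [Field F] [NumberField F] (hF : IsMultiquadratic d F) :
    rank F e ≤ rank ℚ e + (2 ^ n - 1) * B := by
  have hd' : ∀ i, ((d i : ℕ) : ℤ) ≠ 0 := fun i => by exact_mod_cast (hd i).ne'
  have h1 := rk_field (rts h) hd' (gen_of hF)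
  refine h1.trans ?_
  have e0 : ∀ T : Finset (Fin n), Module.finrank ℤ (Sh ((∏ i ∈ T, (d i : ℤ)) ^ 2 * cA e)
      ((∏ i ∈ T, (d i : ℤ)) ^ 3 * cB e)).toAffine.Point = rank ℚ (tw (∏ i ∈ T, (d i : ℤ)) e) := by
    intro T
    unfold rank
    rw [E_tw, rk_eq]
  rw [sum_congr rfl fun T _ => e0 T,
    ← Finset.add_sum_erase (univ : Finset (Finset (Fin n))) _ (mem_univ (∅ : Finset (Fin n))),
    prod_empty, tw_one]
  refine Nat.add_le_add_left ?_ _
  have hcard : ((Finset.univ : Finset (Finset (Fin n))).erase ∅).card = 2 ^ n - 1 := by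
    rw [Finset.card_erase_of_mem (Finset.mem_univ _), Finset.card_univ, Fintype.card_finset,
      Fintype.card_fin]
  rw [← hcard, ← smul_eq_mul]
  exact Finset.sum_le_card_nsmul _ _ _ fun T hT' =>
    rank_le (hT T (nonempty_iff_ne_empty.2 (ne_of_mem_erase hT')))

/-- the rank and the corank over the field -/
lemma corank_field {N : ℕ} {e : Fin 3 → ℤ} (h : Kane N e) {n : ℕ} {d : Fin n → ℕ}
    (hd : ∀ i, 0 < d i) {B r : ℕ} (hr : SelRank e r)
    (hT : ∀ T : Finset (Fin n), T.Nonempty → (SelG ((∏ i ∈ T, (d i : ℤ)) * e 0)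
      ((∏ i ∈ T, (d i : ℤ)) * e 1) ((∏ i ∈ T, (d i : ℤ)) * e 2)).ncard ≤ 2 ^ (B + 2))
    (F : Type) [Field F] [NumberField F] (hF : IsMultiquadratic d F) (q : ℕ)
    (hq : Pool.Agent.TH841.NF.D.HasDiv (E e F) q) :
    rank F e + q ≤ r + (2 ^ n - 1) * B := by
  have hd' : ∀ i, ((d i : ℕ) : ℤ) ≠ 0 := fun i => by exact_mod_cast (hd i).ne'
  have h0 : (SelG (e 0) (e 1) (e 2)).ncard = 2 ^ (r + 2) := by
    have h1 := (selrank_iff h one_ne_zero r).1 (by rw [tw_one]; exact hr)
    rwa [one_mul, one_mul, one_mul] at h1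
  have key := growth_le (rts h) hd' (gen_of hF) (r₀ := r) (ρ := fun _ => B) h0 hT (q := q) hq
  refine key.trans ?_
  have hcard : (univ.filter fun T : Finset (Fin n) => T.Nonempty).card = 2 ^ n - 1 := by
    have e1 : (univ.filter fun T : Finset (Fin n) => T.Nonempty) =
        (Finset.univ : Finset (Finset (Fin n))).erase ∅ := by
      ext T
      rw [mem_filter, mem_erase, nonempty_iff_ne_empty]
      tauto
    rw [e1, Finset.card_erase_of_mem (Finset.mem_univ _), Finset.card_univ, Fintype.card_finset,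
      Fintype.card_fin]
  rw [sum_const, hcard, smul_eq_mul]

end Pool.Agent.N869.GK.Z
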