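import Pool.Agent.N869.GK.Z.Some
import Pool.Agent.N869.GK.Z.Tail

/-!
# Project GK: the law of the largest 2-Selmer rank
-/

set_option autoImplicit false
set_option linter.unusedVariables false
set_option linter.unusedSectionVars false

open scoped Classical

namespace Pool.Agent.N869.GK.Z

open Finset Filter Topology
open Pool.Agent.N869.GK (c4 kap)
open Pool.Agent.N869.GK.H (KC rg kc_bd)

lemma selrank_uniq {e : Fin 3 → ℤ} {r r' : ℕ} (h : SelRank e r) (h' : SelRank e r') : r = r' := by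
  have h1 : 2 ^ r = 2 ^ r' := h.2.symm.trans h'.2
  exact Nat.pow_right_injective le_rfl h1

lemma Near.or {N : ℕ} {w : Bool} {n : ℕ} {P Q : (Fin n → ℕ) → Prop} {q q' δ δ' : ℝ} {f : ℕ}
    (hPQ : ∀ x ∈ fam N w n f, P x → Q x → False) (h : Near N w P q δ f)
    (h' : Near N w Q q' δ' f) :
    Near N w (fun x => P x ∨ Q x) (q + q') (δ + δ') f := by
  obtain ⟨h1, h2, h3⟩ := h
  obtain ⟨-, -, h4⟩ := h'
  refine ⟨h1, h2, ?_⟩
  have e1 : {x ∈ fam N w n f | P x ∨ Q x} =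
      {x ∈ fam N w n f | P x} ∪ {x ∈ fam N w n f | Q x} := by
    ext x
    constructor
    · rintro ⟨hx, h | h⟩
      · exact Or.inl ⟨hx, h⟩
      · exact Or.inr ⟨hx, h⟩
    · rintro (⟨hx, h⟩ | ⟨hx, h⟩)
      · exact ⟨hx, Or.inl h⟩
      · exact ⟨hx, Or.inr h⟩
  have hd : Disjoint {x ∈ fam N w n f | P x} {x ∈ fam N w n f | Q x} := by
    rw [Set.disjoint_left]
    rintro x ⟨hx, h⟩ ⟨-, h'⟩
    exact hPQ x hx h h'
  rw [e1, Set.ncard_union_eq hd (h1.subset fun x hx => hx.1) (h1.subset fun x hx => hx.1)]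
  push_cast
  rw [add_div, add_sub_add_comm]
  exact (abs_add_le _ _).trans (add_le_add h3 h4)

/-- the extension of a vector -/
def xt {n m : ℕ} (𝒯 : Finset (Finset (Fin n))) (ρ : {T // T ∈ 𝒯} × Fin m → ℕ)
    (T : Finset (Fin n)) (k : Fin m) : ℕ := if h : T ∈ 𝒯 then ρ (⟨T, h⟩, k) else 0

lemma xt_mem {n m : ℕ} {𝒯 : Finset (Finset (Fin n))} (ρ : {T // T ∈ 𝒯} × Fin m → ℕ)
    {T : Finset (Fin n)} (hT : T ∈ 𝒯) (k : Fin m) : xt 𝒯 ρ T k = ρ (⟨T, hT⟩, k) := dif_pos hT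

lemma prod_xt {n m : ℕ} {𝒯 : Finset (Finset (Fin n))} (ρ : {T // T ∈ 𝒯} × Fin m → ℕ) :
    ∏ T ∈ 𝒯, ∏ k, law (xt 𝒯 ρ T k) = ∏ a, law (ρ a) := by
  rw [Fintype.prod_prod_type, ← Finset.prod_attach 𝒯, Finset.univ_eq_attach]
  refine prod_congr rfl fun T _ => prod_congr rfl fun k _ => ?_
  rw [xt_mem ρ T.2 k]

/-- a finite set of vectors of ranks -/
theorem law_set {N : ℕ} (hN : 0 < N) {m : ℕ} {e : Fin m → Fin 3 → ℤ}
    (he : ∀ k, Kane N (e k)) {r : Fin m → ℕ} (hr : ∀ k, SelRank (e k) (r k))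
    (ha : ∀ k k', k ≠ k' → Apart (e k) (e k'))
    (w : Bool) (n : ℕ) (hn : w = true → 2 ≤ n) (𝒯 : Finset (Finset (Fin n)))
    (h𝒯 : ∀ T ∈ 𝒯, T.Nonempty) (W : Finset ({T // T ∈ 𝒯} × Fin m → ℕ)) :
    (∀ ρ ∈ W, ∀ a, ρ a % 2 = r a.2 % 2) → ∀ {δ : ℝ}, 0 < δ →
    AlmostAll (Conductor N) (Near N w (fun x => ∃ ρ ∈ W, Ex e (xt 𝒯 ρ) 𝒯 x)
      (∑ ρ ∈ W, ∏ a, law (ρ a)) δ) := by
  induction W using Finset.induction_on with
  | empty =>
    intro _ δ hδ
    have key := lawX hN he hr ha w n hn ∅ (fun T hT => absurd hT (notMem_empty T)) (fun _ _ => 0)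
      (fun T hT => absurd hT (notMem_empty T)) hδ
    refine key.mono fun f hf h => ⟨h.1, h.2.1, ?_⟩
    have e1 : {x ∈ fam N w n f | ∃ ρ ∈ (∅ : Finset ({T // T ∈ 𝒯} × Fin m → ℕ)),
        Ex e (xt 𝒯 ρ) 𝒯 x} = ∅ := by
      ext x
      simp
    rw [e1, Set.ncard_empty, sum_empty]
    simp [hδ.le]
  | insert ρ W hρ ih =>
    intro hW δ hδ
    have h1 := ih (fun ρ' h' => hW ρ' (mem_insert_of_mem h')) (half_pos hδ)
    have h2 := lawX hN he hr ha w n hn 𝒯 h𝒯 (xt 𝒯 ρ) (fun T hT k => by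
      rw [xt_mem ρ hT k]
      exact hW ρ (mem_insert_self _ _) (⟨T, hT⟩, k)) (half_pos hδ)
    rw [prod_xt] at h2
    refine (h2.and h1).mono fun f hf h => ?_
    have h3 := Near.or (fun x hx hP hQ => ?_) h.1 h.2
    · rw [add_halves] at h3
      rw [sum_insert hρ]
      refine h3.congr fun x hx => ?_
      constructor
      · rintro (h | ⟨ρ', h', h⟩)
        · exact ⟨ρ, mem_insert_self _ _, h⟩
        · exact ⟨ρ', mem_insert_of_mem h', h⟩
      · rintro ⟨ρ', h', h⟩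
        rcases mem_insert.1 h' with h'' | h''
        · rw [h''] at h
          exact Or.inl h
        · exact Or.inr ⟨ρ', h'', h⟩
    · obtain ⟨ρ', h', hQ⟩ := hQ
      apply hρ
      have e1 : ρ = ρ' := by
        funext ⟨⟨T, hT⟩, k⟩
        have a1 := hP T hT k
        have a2 := hQ T hT k
        rw [xt_mem ρ hT k] at a1
        rw [xt_mem ρ' hT k] at a2
        exact selrank_uniq a1 a2
      rw [e1]
      exact h'

lemma sum_vec {n m : ℕ} {𝒯 : Finset (Finset (Fin n))} (r : Fin m → ℕ) (B : ℕ) :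
    ∑ ρ ∈ Fintype.piFinset (fun a : {T // T ∈ 𝒯} × Fin m => rg (r a.2) B), ∏ a, law (ρ a) =
      (∏ k, KC (r k) B) ^ 𝒯.card := by
  rw [← Finset.prod_univ_sum (fun a : {T // T ∈ 𝒯} × Fin m => rg (r a.2) B) (fun _ j => law j)]
  rw [Fintype.prod_prod_type]
  have e1 : ∀ k : Fin m, ∑ j ∈ rg (r k) B, law j = KC (r k) B := fun k => rfl
  simp only [e1, prod_const, card_univ, Fintype.card_coe]

/-- the constant -/
lemma exists_big (M B : ℕ) {ε : ℝ} (hε : 0 < ε) :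
    ∃ B' : ℕ, B ≤ B' ∧ (M : ℝ) * (2 / 2 ^ (B' * (B' + 1) / 2)) ≤ ε := by
  obtain ⟨j, hj⟩ := pow_unbounded_of_one_lt ((M : ℝ) * 2 / ε) (by norm_num : (1 : ℝ) < 2)
  refine ⟨j + B, by omega, ?_⟩
  have h1 : j ≤ (j + B) * (j + B + 1) / 2 := by
    rw [Nat.le_div_iff_mul_le (by norm_num)]
    rcases Nat.eq_zero_or_pos j with h | h
    · rw [h]
      simp
    · nlinarith
  have h2 : (2 : ℝ) ^ j ≤ 2 ^ ((j + B) * (j + B + 1) / 2) := pow_le_pow_right₀ (by norm_num) h1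
  have h3 : (M : ℝ) * 2 / ε ≤ 2 ^ ((j + B) * (j + B + 1) / 2) := hj.le.trans h2
  have hpos : (0 : ℝ) < 2 ^ ((j + B) * (j + B + 1) / 2) := by positivity
  rw [div_le_iff₀ hε] at h3
  rw [← mul_div_assoc, div_le_iff₀ hpos]
  linarith

/-- **some 2-Selmer rank is larger than `B`** -/
theorem law_big {N : ℕ} (hN : 0 < N) {m : ℕ} {e : Fin m → Fin 3 → ℤ}
    (he : ∀ k, Kane N (e k)) {r : Fin m → ℕ} (hr : ∀ k, SelRank (e k) (r k))
    (ha : ∀ k k', k ≠ k' → Apart (e k) (e k'))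
    (w : Bool) (n : ℕ) (hn : w = true → 2 ≤ n) (𝒯 : Finset (Finset (Fin n)))
    (h𝒯 : ∀ T ∈ 𝒯, T.Nonempty) (B : ℕ) {δ : ℝ} (hδ : 0 < δ) :
    AlmostAll (Conductor N) (AtLeast N w
      (fun x => ∃ k, ∃ T ∈ 𝒯, ∃ j, B < j ∧ SelRank (tw (∏ i ∈ T, (x i : ℤ)) (e k)) j)
      (1 - (∏ k, KC (r k) B) ^ 𝒯.card) δ) := by
  obtain ⟨B', hB, hB'⟩ := exists_big (Fintype.card ({T // T ∈ 𝒯} × Fin m)) B (half_pos hδ)
  set V : ℕ → Finset ({T // T ∈ 𝒯} × Fin m → ℕ) := fun B =>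
    Fintype.piFinset (fun a : {T // T ∈ 𝒯} × Fin m => rg (r a.2) B) with hV
  have hpar : ∀ B, ∀ ρ ∈ V B, ∀ a, ρ a % 2 = r a.2 % 2 := fun B ρ hρ a =>
    (mem_filter.1 (Fintype.mem_piFinset.1 hρ a)).2
  have hsub : V B ⊆ V B' := by
    intro ρ hρ
    refine Fintype.mem_piFinset.2 fun a => ?_
    have h1 := mem_filter.1 (Fintype.mem_piFinset.1 hρ a)
    exact mem_filter.2 ⟨mem_range.2 (lt_of_lt_of_le (mem_range.1 h1.1) (by omega)), h1.2⟩
  have key := law_set hN he hr ha w n hn 𝒯 h𝒯 (V B' \ V B)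
    (fun ρ hρ => hpar B' ρ (mem_sdiff.1 hρ).1) (half_pos hδ)
  have e1 : ∑ ρ ∈ V B' \ V B, ∏ a, law (ρ a) =
      (∏ k, KC (r k) B') ^ 𝒯.card - (∏ k, KC (r k) B) ^ 𝒯.card := by
    rw [← sum_vec, ← sum_vec, eq_sub_iff_add_eq]
    exact sum_sdiff hsub
  have h2 : 1 - δ / 2 ≤ (∏ k, KC (r k) B') ^ 𝒯.card := by
    have h3 := prod_tail (univ : Finset ({T // T ∈ 𝒯} × Fin m)) (fun a => KC (r a.2) B')
      (2 / 2 ^ (B' * (B' + 1) / 2)) (fun a _ => (kc_bd _ _).1) (fun a _ => (kc_bd _ _).2)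
      fun a _ => kc_tail _ _
    rw [card_univ] at h3
    have e2 : ∏ a : {T // T ∈ 𝒯} × Fin m, KC (r a.2) B' = (∏ k, KC (r k) B') ^ 𝒯.card := by
      rw [Fintype.prod_prod_type]
      simp only [prod_const, card_univ, Fintype.card_coe]
    rw [e2] at h3
    linarith
  rw [e1] at key
  refine key.mono fun f hf h => ?_
  obtain ⟨h4, h5, h6⟩ := h
  refine AtLeast.mono (P := fun x => ∃ ρ ∈ V B' \ V B, Ex e (xt 𝒯 ρ) 𝒯 x) ⟨h4, h5, ?_⟩ ?_
  · have h7 := (abs_le.1 h6).1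
    linarith
  · rintro x hx ⟨ρ, hρ, h⟩
    obtain ⟨h8, h9⟩ := mem_sdiff.1 hρ
    have h10 : ∃ a, ρ a ∉ rg (r a.2) B := by
      by_contra hcon
      push Not at hcon
      exact h9 (Fintype.mem_piFinset.2 hcon)
    obtain ⟨⟨⟨T, hT⟩, k⟩, hk⟩ := h10
    refine ⟨k, T, hT, ρ (⟨T, hT⟩, k), ?_, ?_⟩
    · by_contra hcon
      exact hk (mem_filter.2 ⟨mem_range.2 (by omega), hpar B' ρ h8 _⟩)
    · have := h T hT k
      rwa [xt_mem ρ hT k] at this

lemma kappa_pos : 0 < kappa := by have := kappa_bd.1; linarith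

/-- the law from below -/
lemma law_low (j : ℕ) : kappa / 2 ^ (j * (j - 1) / 2) ≤ law j := by
  induction j with
  | zero => simp [law_zero]
  | succ j ih =>
    have e1 : law (j + 1) = law j * (2 / (2 ^ (j + 1) - 1)) := by
      unfold law
      rw [prod_range_succ, mul_assoc]
    have h1 : (1 : ℝ) / 2 ^ j ≤ 2 / (2 ^ (j + 1) - 1) := by
      have h2 : (1 : ℝ) ≤ 2 ^ j := one_le_pow₀ (by norm_num)
      rw [div_le_div_iff₀ (by positivity) (by rw [pow_succ]; linarith)]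
      rw [pow_succ]
      linarith
    rw [e1, Nat.triangle_succ, pow_add, ← div_div]
    have h3 : 0 < kappa / 2 ^ (j * (j - 1) / 2) := div_pos kappa_pos (by positivity)
    calc kappa / 2 ^ (j * (j - 1) / 2) / 2 ^ j = kappa / 2 ^ (j * (j - 1) / 2) * (1 / 2 ^ j) := by
          ring
      _ ≤ law j * (2 / (2 ^ (j + 1) - 1)) :=
          mul_le_mul ih h1 (by positivity) (h3.le.trans ih)

/-- the tail from below -/
lemma kc_up (s B : ℕ) : KC s B ≤ 1 - kappa / 2 ^ ((B + 1) * (B + 2) / 2) := by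
  obtain ⟨j, hj, hj1, hj2⟩ : ∃ j, j % 2 = s % 2 ∧ B < j ∧ j ≤ B + 2 := by
    rcases Nat.even_or_odd' (B + 1 + s) with ⟨c, hc | hc⟩
    · exact ⟨B + 1, by omega, by omega, by omega⟩
    · exact ⟨B + 2, by omega, by omega, by omega⟩
  have h1 : KC s B + law j ≤ KC s (B + 2) := by
    have h2 : KC s B + law j = ∑ i ∈ insert j (rg s B), kap i := by
      rw [sum_insert, add_comm]
      · rfl
      · intro h
        have := mem_range.1 (mem_filter.1 h).1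
        omega
    rw [h2]
    refine sum_le_sum_of_subset_of_nonneg ?_ fun i _ _ => ?_
    · intro i hi
      rcases mem_insert.1 hi with rfl | hi
      · exact mem_filter.2 ⟨mem_range.2 (by omega), hj⟩
      · have := mem_filter.1 hi
        exact mem_filter.2 ⟨mem_range.2 (by have := mem_range.1 this.1; omega), this.2⟩
    · rw [← law_eq]
      have h3 : 0 < kappa / 2 ^ (i * (i - 1) / 2) := div_pos kappa_pos (by positivity)
      exact h3.le.trans (law_low i)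
  have h4 := (kc_bd s (B + 2)).2
  have h5 := law_low j
  have h6 : kappa / 2 ^ ((B + 1) * (B + 2) / 2) ≤ kappa / 2 ^ (j * (j - 1) / 2) := by
    refine div_le_div_of_nonneg_left kappa_pos.le (by positivity)
      (pow_le_pow_right₀ (by norm_num) (Nat.div_le_div_right ?_))
    calc j * (j - 1) ≤ (B + 2) * (B + 1) := Nat.mul_le_mul hj2 (by omega)
      _ = (B + 1) * (B + 2) := Nat.mul_comm _ _
  linarith

/-- all the bounds hold with a small probability -/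
lemma pow_exp {m : ℕ} (r : Fin m → ℕ) (B c : ℕ) : (∏ k, KC (r k) B) ^ c ≤
    Real.exp (-(kappa * (m * c : ℕ) / 2 ^ ((B + 1) * (B + 2) / 2))) := by
  set t : ℝ := kappa / 2 ^ ((B + 1) * (B + 2) / 2) with ht
  have h1 : ∀ k, KC (r k) B ≤ Real.exp (-t) := fun k => by
    have h2 := Real.add_one_le_exp (-t)
    have h3 := kc_up (r k) B
    linarith
  have h2 : ∏ k, KC (r k) B ≤ Real.exp (-t) ^ m := by
    calc ∏ k, KC (r k) B ≤ ∏ k : Fin m, Real.exp (-t) :=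
          prod_le_prod (fun k _ => (kc_bd _ _).1) fun k _ => h1 k
      _ = Real.exp (-t) ^ m := by rw [prod_const, card_univ, Fintype.card_fin]
  have h3 : 0 ≤ ∏ k, KC (r k) B := prod_nonneg fun k _ => (kc_bd _ _).1
  refine (pow_le_pow_left₀ h3 h2 c).trans (le_of_eq ?_)
  rw [← pow_mul, ← Real.exp_nat_mul]
  congr 1
  rw [ht]
  ring

end Pool.Agent.N869.GK.Z
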