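import Pool.Agent.N869.GK.Z.Lln

/-!
# Project GK: the joint law of the set of the minimal twists
-/

set_option autoImplicit false
set_option linter.unusedVariables false
set_option linter.unusedSectionVars false

open scoped Classical

namespace Pool.Agent.N869.GK.Z

open Finset Filter Topology

/-- the pairs `(k, T)`, `T ∈ 𝒯`, with the property `P` -/
noncomputable def sat {m n : ℕ} (𝒯 : Finset (Finset (Fin n)))
    (P : Fin m → Finset (Fin n) → Prop) : Finset (Fin m × Finset (Fin n)) :=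
  ((univ : Finset (Fin m)) ×ˢ 𝒯).filter fun a => P a.1 a.2

/-- the embedding of the indices -/
def emb {n : ℕ} (𝒯 : Finset (Finset (Fin n))) (m : ℕ) : Ix 𝒯 m ↪ Fin m × Finset (Fin n) :=
  ⟨fun a => (a.2, a.1.1), by
    rintro ⟨⟨T, hT⟩, k⟩ ⟨⟨T', hT'⟩, k'⟩ h
    simp only [Prod.mk.injEq] at h
    obtain ⟨rfl, rfl⟩ := h
    rfl⟩

lemma mins_map {m n : ℕ} {e : Fin m → Fin 3 → ℤ} {𝒯 : Finset (Finset (Fin n))} {x : Fin n → ℕ}
    {P : Fin m → Finset (Fin n) → Prop}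
    (h : ∀ k, ∀ T ∈ 𝒯, SelRank (tw (∏ i ∈ T, (x i : ℤ)) (e k)) 0 ↔ P k T) :
    (mins e 𝒯 x).map (emb 𝒯 m) = sat 𝒯 P := by
  ext ⟨k, T⟩
  rw [Finset.mem_map]
  unfold sat mins
  rw [mem_filter, mem_product]
  constructor
  · rintro ⟨⟨⟨T', hT'⟩, k'⟩, h1, h2⟩
    obtain ⟨rfl, rfl⟩ : k' = k ∧ T' = T := Prod.mk.injEq _ _ _ _ ▸ h2
    exact ⟨⟨mem_univ _, hT'⟩, (h _ _ hT').1 (mem_filter.1 h1).2⟩
  · rintro ⟨⟨-, hT⟩, h1⟩
    exact ⟨(⟨T, hT⟩, k), mem_filter.2 ⟨mem_univ _, (h _ _ hT).2 h1⟩, rfl⟩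

/-- the probability of a set of sets for independent events of probability `κ` -/
noncomputable def wt {α : Type} (M : ℕ) (𝒥 : Finset (Finset α)) : ℝ :=
  ∑ J ∈ 𝒥, kappa ^ J.card * (1 - kappa) ^ (M - J.card)

/-- the property is that of the 2-Selmer groups -/
def IsMin {m n : ℕ} (e : Fin m → Fin 3 → ℤ) (x : Fin n → ℕ) (k : Fin m) (T : Finset (Fin n)) :
    Prop := SelRank (tw (∏ i ∈ T, (x i : ℤ)) (e k)) 0

theorem law_pat {N : ℕ} (hN : 0 < N) {m : ℕ} {e : Fin m → Fin 3 → ℤ}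
    (he : ∀ k, Kane N (e k)) (hr : ∀ k, ∃ r, SelRank (e k) (2 * r))
    (ha : ∀ k k', k ≠ k' → Apart (e k) (e k'))
    (w : Bool) (n : ℕ) (hn : w = true → 2 ≤ n) (𝒯 : Finset (Finset (Fin n)))
    (h𝒯 : ∀ T ∈ 𝒯, T.Nonempty) (𝒥 : Finset (Finset (Fin m × Finset (Fin n))))
    (h𝒥 : ∀ J ∈ 𝒥, J ⊆ (univ : Finset (Fin m)) ×ˢ 𝒯) {δ : ℝ} (hδ : 0 < δ) :
    AlmostAll (Conductor N) (AtLeast N w (fun x => sat 𝒯 (IsMin e x) ∈ 𝒥)
      (wt (m * 𝒯.card) 𝒥) δ) := by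
  choose r hr using hr
  have key := law_sets hN he hr (fun k => by omega) ha w n hn 𝒯 h𝒯
    ((univ : Finset (Finset (Ix 𝒯 m))).filter fun J => J.map (emb 𝒯 m) ∈ 𝒥) hδ
  have e1 : ∑ J ∈ (univ : Finset (Finset (Ix 𝒯 m))).filter (fun J => J.map (emb 𝒯 m) ∈ 𝒥),
      kappa ^ J.card * (1 - kappa) ^ (m * 𝒯.card - J.card) = wt (m * 𝒯.card) 𝒥 := by
    unfold wt
    refine sum_nbij (fun J => J.map (emb 𝒯 m)) (fun J hJ => (mem_filter.1 hJ).2)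
      (fun J _ J' _ h => Finset.map_injective _ h) ?_ (fun J _ => by rw [card_map])
    intro J hJ
    have hJ' : J ∈ 𝒥 := hJ
    have h1 : ((univ : Finset (Ix 𝒯 m)).filter fun a => emb 𝒯 m a ∈ J).map (emb 𝒯 m) = J := by
      ext ⟨k, T⟩
      rw [Finset.mem_map]
      constructor
      · rintro ⟨a, ha, h⟩
        rw [← h]
        exact (mem_filter.1 ha).2
      · intro h
        have hT := (mem_product.1 (h𝒥 J hJ' h)).2
        exact ⟨(⟨T, hT⟩, k), mem_filter.2 ⟨mem_univ _, h⟩, rfl⟩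
    refine ⟨(univ : Finset (Ix 𝒯 m)).filter fun a => emb 𝒯 m a ∈ J, ?_, h1⟩
    rw [mem_coe, mem_filter, h1]
    exact ⟨mem_univ _, hJ'⟩
  rw [e1] at key
  refine key.mono fun f hf h => h.mono fun x hx h => ?_
  have h2 := (mem_filter.1 h).2
  rw [mins_map (P := IsMin e x) fun k T _ => Iff.rfl] at h2
  exact h2

lemma wt_univ {m n : ℕ} (𝒯 : Finset (Finset (Fin n))) :
    wt (m * 𝒯.card) ((univ : Finset (Fin m)) ×ˢ 𝒯).powerset = 1 := by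
  unfold wt
  have h := sum_pow_mul_eq_add_pow kappa (1 - kappa) ((univ : Finset (Fin m)) ×ˢ 𝒯)
  rw [card_product, card_univ, Fintype.card_fin, add_sub_cancel, one_pow] at h
  exact h

/-- **The joint law of the set of the minimal twists**: independent events of probability `κ`. -/
theorem law_pat' {N : ℕ} (hN : 0 < N) {m : ℕ} {e : Fin m → Fin 3 → ℤ}
    (he : ∀ k, Kane N (e k)) (hr : ∀ k, ∃ r, SelRank (e k) (2 * r))
    (ha : ∀ k k', k ≠ k' → Apart (e k) (e k'))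
    (w : Bool) (n : ℕ) (hn : w = true → 2 ≤ n) (𝒯 : Finset (Finset (Fin n)))
    (h𝒯 : ∀ T ∈ 𝒯, T.Nonempty) (𝒥 : Finset (Finset (Fin m × Finset (Fin n))))
    (h𝒥 : ∀ J ∈ 𝒥, J ⊆ (univ : Finset (Fin m)) ×ˢ 𝒯) {δ : ℝ} (hδ : 0 < δ) :
    AlmostAll (Conductor N) (Near N w (fun x => sat 𝒯 (IsMin e x) ∈ 𝒥)
      (wt (m * 𝒯.card) 𝒥) δ) := by
  have k1 := law_pat hN he hr ha w n hn 𝒯 h𝒯 𝒥 h𝒥 hδ
  have k2 := law_pat hN he hr ha w n hn 𝒯 h𝒯 (((univ : Finset (Fin m)) ×ˢ 𝒯).powerset \ 𝒥)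
    (fun J hJ => mem_powerset.1 (mem_sdiff.1 hJ).1) hδ
  have hsub : 𝒥 ⊆ ((univ : Finset (Fin m)) ×ˢ 𝒯).powerset := fun J hJ => mem_powerset.2 (h𝒥 J hJ)
  have e1 : wt (m * 𝒯.card) (((univ : Finset (Fin m)) ×ˢ 𝒯).powerset \ 𝒥) =
      1 - wt (m * 𝒯.card) 𝒥 := by
    rw [← wt_univ (m := m) 𝒯, eq_sub_iff_add_eq]
    exact sum_sdiff hsub
  rw [e1] at k2
  refine (k1.and k2).mono fun f hf h => ?_
  obtain ⟨⟨h1, h2, h3⟩, ⟨-, -, h4⟩⟩ := h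
  refine ⟨h1, h2, ?_⟩
  have hc : (0 : ℝ) < (fam N w n f).ncard := by exact_mod_cast h2
  have e2 : {x ∈ fam N w n f | sat 𝒯 (IsMin e x) ∈ ((univ : Finset (Fin m)) ×ˢ 𝒯).powerset \ 𝒥} =
      fam N w n f \ {x ∈ fam N w n f | sat 𝒯 (IsMin e x) ∈ 𝒥} := by
    ext x
    constructor
    · rintro ⟨hx, h⟩
      exact ⟨hx, fun h' => (mem_sdiff.1 h).2 h'.2⟩
    · rintro ⟨hx, h⟩
      exact ⟨hx, mem_sdiff.2 ⟨mem_powerset.2 (filter_subset _ _), fun h' => h ⟨hx, h'⟩⟩⟩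
  have hs : {x ∈ fam N w n f | sat 𝒯 (IsMin e x) ∈ 𝒥} ⊆ fam N w n f := fun x hx => hx.1
  rw [e2, Set.ncard_sdiff hs (h1.subset hs), Nat.cast_sub (Set.ncard_le_ncard hs h1), sub_div,
    div_self hc.ne'] at h4
  rw [abs_le]
  constructor
  · linarith
  · linarith

/-- **The law of large numbers inside the tuples.** -/
theorem law_num {N : ℕ} (hN : 0 < N) {m : ℕ} {e : Fin m → Fin 3 → ℤ}
    (he : ∀ k, Kane N (e k)) (hr : ∀ k, ∃ r, SelRank (e k) (2 * r))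
    (ha : ∀ k k', k ≠ k' → Apart (e k) (e k'))
    (w : Bool) (n : ℕ) (hn : w = true → 2 ≤ n) (𝒯 : Finset (Finset (Fin n)))
    (h𝒯 : ∀ T ∈ 𝒯, T.Nonempty) (hM : 0 < m * 𝒯.card) {ε δ : ℝ} (hε : 0 < ε) (hδ : 0 < δ) :
    AlmostAll (Conductor N) (AtLeast N w
      (fun x => |((sat 𝒯 (IsMin e x)).card : ℝ) - kappa * (m * 𝒯.card : ℕ)| ≤
        ε * (m * 𝒯.card : ℕ))
      (1 - kappa * (1 - kappa) / (ε ^ 2 * (m * 𝒯.card : ℕ))) δ) := by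
  refine (law_lln hN he hr ha w n hn 𝒯 h𝒯 hM hε hδ).mono fun f hf h => h.mono fun x hx h => ?_
  rw [← mins_map (P := IsMin e x) fun k T _ => Iff.rfl, card_map]
  exact h

lemma sat_congr {m n : ℕ} {𝒯 : Finset (Finset (Fin n))} {P Q : Fin m → Finset (Fin n) → Prop}
    (h : ∀ k, ∀ T ∈ 𝒯, P k T ↔ Q k T) : sat 𝒯 P = sat 𝒯 Q := by
  ext ⟨k, T⟩
  unfold sat
  rw [mem_filter, mem_filter]
  exact and_congr_right fun h1 => h k T (mem_product.1 h1).2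

end Pool.Agent.N869.GK.Z
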